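import Pool.Agent.Lib.MP_90732c_al.Cx.P2.ADDJ

/-! Module ADDI (helper79): a new edge over `A`, by walks. -/

set_option autoImplicit false

open MeasureTheory
open scoped ENNReal Pointwise

namespace Pool.Agent.Lib.MP_90732c_al.Cx

open Pool.Agent.Lib.MP_90732c_al.Ab

open AddJ in
/-- Module ADDI. -/
theorem addI (hC : CstStatement) (hS : SprStatement) : AddIStatement := by
  intro G _ _ f₁ f₂ a C s I J hSt x ε h0 h1 L N b δ w hL hm hdis
  obtain ⟨Y, iY, iB, iA, ν, iP, A, S, hν, hA, hcst, ha, hf₁, hf₂, hI, hJ⟩ := hSt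
  obtain ⟨hrel, hSm, -, -, hprod⟩ := hC G Y ν S C hcst
  have hSm' := hSm fun g => (hν g).measurable
  have hν' : ∀ g : G, MeasurePreserving (fun z : Y × Lab G => g • z)
      (ν.prod (lam G)) (ν.prod (lam G)) := fun g => (hν g).prod (lam_measurePreserving g)
  obtain ⟨-, -, -, hadd, -⟩ := hC G (Y × Lab G) (ν.prod (lam G)) _ C (hprod (Lab G) (lam G))
  have hBm : MeasurableSet {z : Y × Lab G | z.2 1 < ε} := by
    have h : Measurable fun z : Y × Lab G => z.2 1 :=
      (measurable_pi_apply (1 : G)).comp measurable_snd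
    exact h measurableSet_Iio
  obtain ⟨S', hcst', hSS', hB'⟩ := hadd Unit (fun _ => x) (fun _ => {z | z.2 1 < ε})
    fun _ => hBm
  have hBν : (ν.prod (lam G)) {z : Y × Lab G | z.2 1 < ε} = ENNReal.ofReal ε := by
    have : {z : Y × Lab G | z.2 1 < ε} = Set.univ ×ˢ {ω : Lab G | ω 1 < ε} := by
      ext z
      simp
    rw [this, Measure.prod_prod, measure_univ, one_mul, lam_lt h0 h1]
  rw [tsum_fintype, Fintype.sum_unique, hBν] at hcst'
  have hrel' : IsRel S' := (hC G _ _ S' _ hcst').1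
  -- the new edge
  have hnew : (ν.prod (lam G)) {z : Y × Lab G | z.1 ∈ A ∧ ¬ S' z x} ≤
      2 * ((L + 1) * (b + δ)) + ENNReal.ofReal ((1 - ε ^ L) ^ (N / 2)) := by
    refine hS G Y ν hν S hrel hSm' x ε h0 h1 L N w hL hdis A hA ((L + 1) * (b + δ)) ?_ S'
      hrel' hSS' ?_
    · intro r
      have hle : ∀ m ∈ mvs x x (w r), ν ({y | y ∈ A ∧ m.1 • y ∉ A} ∪
          {y | m.1 • y ∈ A ∧ ¬ S (m.1 • y) m.2}) ≤ b + δ := by
        intro m hmem
        obtain ⟨hb, hδ⟩ := hm r m hmem
        refine (measure_union_le _ _).trans (add_le_add ?_ ?_)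
        · have hset : MeasurableSet {y | y ∉ A ∧ m.1⁻¹ • y ∈ A} :=
            hA.compl.inter ((hν m.1⁻¹).measurable hA)
          refine le_trans ?_ ((hf₁ m.1⁻¹).trans hb)
          rw [← (hν m.1).measure_preimage hset.nullMeasurableSet]
          refine measure_mono ?_
          rintro y ⟨hy1, hy2⟩
          refine ⟨hy2, ?_⟩
          show m.1⁻¹ • m.1 • y ∈ A
          rwa [inv_smul_smul]
        · have hset : MeasurableSet {y | y ∈ A ∧ ¬ S y m.2} := hA.inter (hSm' m.2).compl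
          have := (hν m.1).measure_preimage hset.nullMeasurableSet
          refine le_trans (le_of_eq ?_) (hI _ hδ)
          exact this
      have h3 := list_le ν (fun m : G × G => {y | y ∈ A ∧ m.1 • y ∉ A} ∪
          {y | m.1 • y ∈ A ∧ ¬ S (m.1 • y) m.2}) (b + δ) (mvs x x (w r)) hle
      refine le_trans (measure_mono ?_) (h3.trans ?_)
      · rintro y ⟨hy, m, hmem, hn⟩
        refine ⟨m, hmem, ?_⟩
        by_cases hc : m.1 • y ∈ A
        · exact Or.inr ⟨hc, hn⟩
        · exact Or.inl ⟨hy, hc⟩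
      · rw [mvs_length]
        refine mul_le_mul_left ?_ _
        push_cast
        exact add_le_add (by exact_mod_cast hL r) le_rfl
    · intro z hz
      exact hB' () z hz
  refine ⟨Y × Lab G, inferInstance, inferInstance, inferInstance, ν.prod (lam G), inferInstance,
    {z | z.1 ∈ A}, S', hν', measurable_fst hA, hcst', ?_, ?_, ?_, ?_, ?_⟩
  · have := fst_eq ν (lam G) fun y => y ∉ A
    exact (le_of_eq this).trans ha
  · intro g
    exact (le_of_eq (fst_eq ν (lam G) fun y => y ∉ A ∧ g • y ∈ A)).trans (hf₁ g)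
  · intro g
    exact (le_of_eq (fst_eq ν (lam G) fun y => y ∉ A ∧ g • y ∉ A)).trans (hf₂ g)
  · intro i hi
    rcases List.mem_cons.1 hi with rfl | hi
    · refine le_trans (measure_mono ?_) hnew
      rintro z ⟨hz, hn⟩
      exact ⟨hz, hn⟩
    · refine le_trans (measure_mono ?_)
        ((le_of_eq (fst_eq ν (lam G) fun y => y ∈ A ∧ ¬ S y i.1)).trans (hI i hi))
      rintro z ⟨hz, hn⟩
      exact ⟨hz, fun h => hn (hSS' z i.1 h)⟩
  · intro j hj
    refine le_trans (measure_mono ?_)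
      ((le_of_eq (fst_eq ν (lam G) fun y => s⁻¹ • y ∉ A ∧ y ∈ A ∧ ¬ S y j.1)).trans (hJ j hj))
    rintro z ⟨hz1, hz2, hn⟩
    exact ⟨hz1, hz2, fun h => hn (hSS' z j.1 h)⟩

end Pool.Agent.Lib.MP_90732c_al.Cx
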