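import Pool.Agent.Lib.MP_90732c_al.Cx.Two

/-! Module ADDJ (helper74): a new edge over `A ∩ s • Aᶜ`, by walks which stay far from `s⁻¹`. -/

set_option autoImplicit false

open MeasureTheory
open scoped ENNReal Pointwise

namespace Pool.Agent.Lib.MP_90732c_al.Cx

open Pool.Agent.Lib.MP_90732c_al.Ab

namespace AddJ

variable {G : Type} [Group G]

lemma mvs_length (x : G) (w : List (G × Bool)) (p : G) : (mvs x p w).length = w.length + 1 := by
  induction w generalizing p with
  | nil => rfl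
  | cons a w ih => simp [mvs, ih]

/-- The measure of the set of points where one of the members of a list of bad events holds. -/
lemma list_le {Y M : Type} [MeasurableSpace Y] (ν : Measure Y) (B : M → Set Y) (c : ℝ≥0∞) :
    ∀ l : List M, (∀ m ∈ l, ν (B m) ≤ c) → ν {y | ∃ m ∈ l, y ∈ B m} ≤ (l.length : ℝ≥0∞) * c
  | [], _ => by simp
  | m :: l, h => by
    have h1 : {y | ∃ m' ∈ m :: l, y ∈ B m'} ⊆ B m ∪ {y | ∃ m' ∈ l, y ∈ B m'} := by
      rintro y ⟨m', hm', hy⟩
      rcases List.mem_cons.1 hm' with rfl | hm'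
      · exact Or.inl hy
      · exact Or.inr ⟨m', hm', hy⟩
    calc ν {y | ∃ m' ∈ m :: l, y ∈ B m'} ≤ ν (B m) + ν {y | ∃ m' ∈ l, y ∈ B m'} :=
          (measure_mono h1).trans (measure_union_le _ _)
      _ ≤ c + (l.length : ℝ≥0∞) * c :=
          add_le_add (h m List.mem_cons_self)
            (list_le ν B c l fun m' hm' => h m' (List.mem_cons_of_mem _ hm'))
      _ = ((m :: l).length : ℝ≥0∞) * c := by
          rw [List.length_cons, Nat.cast_add, Nat.cast_one, add_mul, one_mul, add_comm]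

/-- Events which only depend on the first coordinate. -/
lemma fst_eq {Y Ω : Type} [MeasurableSpace Y] [MeasurableSpace Ω] (ν : Measure Y)
    [IsProbabilityMeasure ν] (P : Measure Ω) [IsProbabilityMeasure P] (p : Y → Prop) :
    (ν.prod P) {z : Y × Ω | p z.1} = ν {y | p y} := by
  have : {z : Y × Ω | p z.1} = {y | p y} ×ˢ Set.univ := by
    ext z
    simp
  rw [this, Measure.prod_prod, measure_univ, mul_one]

end AddJ

open AddJ in
/-- Module ADDJ. -/
theorem addJ (hC : CstStatement) (hS : SprStatement) : AddJStatement := by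
  intro G _ _ f₁ f₂ a C s I J hSt x ε h0 h1 L N b δ w hL hm hdis
  obtain ⟨Y, iY, iB, iA, ν, iP, A, S, hν, hA, hcst, ha, hf₁, hf₂, hI, hJ⟩ := hSt
  obtain ⟨hrel, hSm, -, -, hprod⟩ := hC G Y ν S C hcst
  have hSm' := hSm fun g => (hν g).measurable
  have hν' : ∀ g : G, MeasurePreserving (fun z : Y × Lab G => g • z)
      (ν.prod (lam G)) (ν.prod (lam G)) := fun g => (hν g).prod (lam_measurePreserving g)
  obtain ⟨-, -, -, hadd, -⟩ := hC G (Y × Lab G) (ν.prod (lam G)) _ C (hprod (Lab G) (lam G))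
  have hBm : MeasurableSet {z : Y × Lab G | z.2 1 < ε} := by
    have h : Measurable fun z : Y × Lab G => z.2 1 :=
      (measurable_pi_apply (1 : G)).comp measurable_snd
    exact h measurableSet_Iio
  obtain ⟨S', hcst', hSS', hB'⟩ := hadd Unit (fun _ => x) (fun _ => {z | z.2 1 < ε})
    fun _ => hBm
  have hBν : (ν.prod (lam G)) {z : Y × Lab G | z.2 1 < ε} = ENNReal.ofReal ε := by
    have : {z : Y × Lab G | z.2 1 < ε} = Set.univ ×ˢ {ω : Lab G | ω 1 < ε} := by
      ext z
      simp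
    rw [this, Measure.prod_prod, measure_univ, one_mul, lam_lt h0 h1]
  rw [tsum_fintype, Fintype.sum_unique, hBν] at hcst'
  have hrel' : IsRel S' := (hC G _ _ S' _ hcst').1
  -- the new edge
  have hnew : (ν.prod (lam G)) {z : Y × Lab G | (s⁻¹ • z.1 ∉ A ∧ z.1 ∈ A) ∧ ¬ S' z x} ≤
      2 * ((L + 1) * (b + δ)) + ENNReal.ofReal ((1 - ε ^ L) ^ (N / 2)) := by
    refine hS G Y ν hν S hrel hSm' x ε h0 h1 L N w hL hdis {y | s⁻¹ • y ∉ A ∧ y ∈ A}
      (((hν s⁻¹).measurable hA).compl.inter hA) ((L + 1) * (b + δ)) ?_ S' hrel' hSS' ?_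
    · intro r
      have hle : ∀ m ∈ mvs x x (w r), ν ({y | s⁻¹ • y ∉ A ∧ m.1 • y ∉ A} ∪
          {y | m.1 • y ∈ A ∧ ¬ S (m.1 • y) m.2}) ≤ b + δ := by
        intro m hmem
        obtain ⟨hb, hδ⟩ := hm r m hmem
        refine (measure_union_le _ _).trans (add_le_add ?_ ?_)
        · have hset : MeasurableSet {y | s⁻¹ • y ∉ A ∧ m.1 • y ∉ A} :=
            ((hν s⁻¹).measurable hA).compl.inter ((hν m.1).measurable hA).compl
          rw [← (hν s).measure_preimage hset.nullMeasurableSet]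
          refine le_trans (measure_mono ?_) ((hf₂ (m.1 * s)).trans hb)
          rintro y ⟨hy1, hy2⟩
          refine ⟨?_, ?_⟩
          · rwa [inv_smul_smul] at hy1
          · rwa [mul_smul]
        · have hset : MeasurableSet {y | y ∈ A ∧ ¬ S y m.2} := hA.inter (hSm' m.2).compl
          have := (hν m.1).measure_preimage hset.nullMeasurableSet
          refine le_trans (le_of_eq ?_) (hI _ hδ)
          exact this
      have h3 := list_le ν (fun m : G × G => {y | s⁻¹ • y ∉ A ∧ m.1 • y ∉ A} ∪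
          {y | m.1 • y ∈ A ∧ ¬ S (m.1 • y) m.2}) (b + δ) (mvs x x (w r)) hle
      refine le_trans (measure_mono ?_) (h3.trans ?_)
      · rintro y ⟨hy, m, hmem, hn⟩
        refine ⟨m, hmem, ?_⟩
        by_cases hc : m.1 • y ∈ A
        · exact Or.inr ⟨hc, hn⟩
        · exact Or.inl ⟨hy.1, hc⟩
      · rw [mvs_length]
        refine mul_le_mul_left ?_ _
        push_cast
        exact add_le_add (by exact_mod_cast hL r) le_rfl
    · intro z hz
      exact hB' () z hz
  refine ⟨Y × Lab G, inferInstance, inferInstance, inferInstance, ν.prod (lam G), inferInstance,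
    {z | z.1 ∈ A}, S', hν', measurable_fst hA, hcst', ?_, ?_, ?_, ?_, ?_⟩
  · have := fst_eq ν (lam G) fun y => y ∉ A
    exact (le_of_eq this).trans ha
  · intro g
    exact (le_of_eq (fst_eq ν (lam G) fun y => y ∉ A ∧ g • y ∈ A)).trans (hf₁ g)
  · intro g
    exact (le_of_eq (fst_eq ν (lam G) fun y => y ∉ A ∧ g • y ∉ A)).trans (hf₂ g)
  · intro i hi
    refine le_trans (measure_mono ?_)
      ((le_of_eq (fst_eq ν (lam G) fun y => y ∈ A ∧ ¬ S y i.1)).trans (hI i hi))
    rintro z ⟨hz, hn⟩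
    exact ⟨hz, fun h => hn (hSS' z i.1 h)⟩
  · intro j hj
    rcases List.mem_cons.1 hj with rfl | hj
    · refine le_trans (measure_mono ?_) hnew
      rintro z ⟨hz1, hz2, hn⟩
      exact ⟨⟨hz1, hz2⟩, hn⟩
    · refine le_trans (measure_mono ?_)
        ((le_of_eq (fst_eq ν (lam G) fun y => s⁻¹ • y ∉ A ∧ y ∈ A ∧ ¬ S y j.1)).trans (hJ j hj))
      rintro z ⟨hz1, hz2, hn⟩
      exact ⟨hz1, hz2, fun h => hn (hSS' z j.1 h)⟩

end Pool.Agent.Lib.MP_90732c_al.Cx
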