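import Pool.Agent.Lib.MP_90732c_al.Cx.Two
import Pool.Agent.Lib.MP_90732c_al.Ab.FIN

/-! Module ATT (helper27): attaching the points outside of `A` along `s`, adding the missing
generators, and comparing with the cost. -/

set_option autoImplicit false

open MeasureTheory
open scoped ENNReal Pointwise

namespace Pool.Agent.Lib.MP_90732c_al.Cx

open Pool.Agent.Lib.MP_90732c_al.Ab

namespace Att

variable {G : Type} [Group G]

/-- A relation which contains a generating set has cost at least `c`. -/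
theorem le_of_full [Countable G] {c : ℝ≥0∞} (hc : CostGe G c) {Y : Type} [MeasurableSpace Y]
    [StandardBorelSpace Y] [MulAction G Y] (ν : Measure Y) [IsProbabilityMeasure ν]
    (hν : ∀ g : G, MeasurePreserving (fun y : Y => g • y) ν ν) {S : Y → G → Prop} {C : ℝ≥0∞}
    (hrel : IsRel S) (hexc : Cst (ν.prod (lam G)) (fun (z : Y × Lab G) g => S z.1 g) C)
    {K : Set G} (hK : Subgroup.closure K = ⊤) (hfull : ∀ y, ∀ g ∈ K, S y g) : c ≤ C := by
  classical
  have hS : ∀ g : G, ∀ y : Y, S y g := by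
    intro g
    have hg : g ∈ Subgroup.closure K := by rw [hK]; trivial
    induction hg using Subgroup.closure_induction with
    | mem x hx => exact fun y => hfull y x hx
    | one => exact fun y => hrel.one y
    | mul a b _ _ ha hb => exact fun y => hrel.mul y b a (hb y) (ha (b • y))
    | inv a _ ha =>
      intro y
      have := hrel.inv (a⁻¹ • y) a (ha _)
      rwa [smul_inv_smul] at this
  obtain ⟨ι, _, s, A, hA, hgen, hsum⟩ := hexc
  refine le_trans ?_ hsum
  have : Encodable ι := Encodable.ofCountable ι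
  let s' : ℕ → G := fun n => ((Encodable.decode₂ ι n).map s).getD 1
  let A' : ℕ → Set (Y × Lab G) := fun n => ((Encodable.decode₂ ι n).map A).getD ∅
  have hs' : ∀ i, s' (Encodable.encode i) = s i := fun i => by simp [s']
  have hA' : ∀ i, A' (Encodable.encode i) = A i := fun i => by simp [A']
  have key : ∑' i, (ν.prod (lam G)) (A i) = ∑' n, (ν.prod (lam G)) (A' n) := by
    rw [← (Encodable.encode_injective (α := ι)).tsum_eq (f := fun n => (ν.prod (lam G)) (A' n))]
    · simp only [hA']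
    · intro n hn
      rw [Function.mem_support] at hn
      cases hd : Encodable.decode₂ ι n with
      | none =>
        exfalso; apply hn
        simp [A', hd]
      | some i => exact ⟨i, (Encodable.mem_decode₂.1 hd)⟩
  rw [key]
  refine hc (Y × Lab G) (ν.prod (lam G)) (fun g => (hν g).prod (lam_measurePreserving g)) ?_ s' A'
    ?_ ?_
  · intro g hg
    refine measure_mono_null (t := Set.univ ×ˢ {ω : Lab G | g • ω = ω}) ?_ ?_
    · rintro ⟨y, ω⟩ hx
      exact ⟨trivial, congrArg Prod.snd hx⟩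
    · rw [Measure.prod_prod, lam_free g hg, mul_zero]
  · intro n
    cases hd : Encodable.decode₂ ι n with
    | none => simp [A', hd]
    | some i => simpa [A', hd] using hA i
  · refine Filter.Eventually.of_forall fun x g => ?_
    have h1 := ((hgen x g).1 (hS g x.1)).reflTransGen
    refine Relation.ReflTransGen.mono ?_ _ _ h1
    rintro y z ⟨i, hi⟩
    refine ⟨Encodable.encode i, ?_⟩
    rw [hs', hA']
    exact hi

end Att

/-- Attaching the points outside of `A` along `s`, and the missing generators. -/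
theorem att2 (hC : CstStatement) : Att2Statement := by
  intro G _ _ c hc Y _ _ _ ν _ hν S C hS A hA s T hT
  have hG : ∀ g : G, Measurable fun y : Y => g • y := fun g => (hν g).measurable
  obtain ⟨-, -, -, hadd, -⟩ := hC G Y ν S C hS
  have hB : MeasurableSet {y : Y | y ∉ A ∧ s • y ∈ A} := hA.compl.inter (hG s hA)
  obtain ⟨S₁, hS₁, hSS, hs⟩ := hadd Unit (fun _ => s) (fun _ => {y | y ∉ A ∧ s • y ∈ A})
    (fun _ => hB)
  obtain ⟨hR₁, hM₁, -, hadd₁, -⟩ := hC G Y ν S₁ _ hS₁
  obtain ⟨S₂, hS₂, hSS₂, ht⟩ := hadd₁ {t // t ∈ T} (fun t => t.1) (fun t => {y | ¬ S₁ y t.1})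
    (fun t => (hM₁ hG t.1).compl)
  obtain ⟨hR₂, -, -, -, hprod⟩ := hC G Y ν S₂ _ hS₂
  have h1 := Att.le_of_full hc ν hν hR₂ (hprod (Lab G) (lam G)) hT (by
    intro y t htT
    by_cases h : S₁ y t
    · exact hSS₂ y t h
    · exact ht ⟨t, htT⟩ y h)
  refine h1.trans ?_
  have h2 : ∑' _ : Unit, ν {y : Y | y ∉ A ∧ s • y ∈ A} ≤ ν Aᶜ := by
    rw [tsum_fintype]
    simp only [Finset.univ_unique, Finset.sum_singleton]
    exact measure_mono fun y hy => hy.1
  have h3 : ∑' t : {t // t ∈ T}, ν {y | ¬ S₁ y t.1} = ∑ t ∈ T, ν {y | ¬ S₁ y t} := by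
    rw [tsum_fintype]
    exact Finset.sum_coe_sort T fun t => ν {y | ¬ S₁ y t}
  rw [h3]
  refine add_le_add (add_le_add le_rfl h2) (Finset.sum_le_sum fun t _ => ?_)
  have hsub : {y | ¬ S₁ y t} ⊆ ((({y | y ∈ A ∧ ¬ S y t} ∪ {y | y ∉ A ∧ t • y ∈ A}) ∪
      {y | y ∉ A ∧ s • y ∉ A}) ∪ {y | y ∉ A ∧ (s * t) • y ∉ A}) ∪
      {y | y ∉ A ∧ s • y ∈ A ∧ ¬ S (s • y) (s * t * s⁻¹)} := by
    intro y hy
    by_cases hyA : y ∈ A
    · exact Or.inl (Or.inl (Or.inl (Or.inl ⟨hyA, fun h => hy (hSS y t h)⟩)))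
    by_cases htA : t • y ∈ A
    · exact Or.inl (Or.inl (Or.inl (Or.inr ⟨hyA, htA⟩)))
    by_cases hsA : s • y ∈ A
    swap
    · exact Or.inl (Or.inl (Or.inr ⟨hyA, hsA⟩))
    by_cases hstA : (s * t) • y ∈ A
    swap
    · exact Or.inl (Or.inr ⟨hyA, hstA⟩)
    refine Or.inr ⟨hyA, hsA, fun hst => hy ?_⟩
    have e1 : S₁ y s := hs () y ⟨hyA, hsA⟩
    have e2 : S₁ y (s * t * s⁻¹ * s) := hR₁.mul y s (s * t * s⁻¹) e1 (hSS _ _ hst)
    rw [inv_mul_cancel_right] at e2
    have e3 : S₁ (t • y) s := hs () (t • y) ⟨htA, by rwa [← mul_smul]⟩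
    have e4 := hR₁.inv (t • y) s e3
    rw [← mul_smul] at e4
    have e5 := hR₁.mul y (s * t) s⁻¹ e2 e4
    rwa [inv_mul_cancel_left] at e5
  refine (measure_mono hsub).trans ?_
  refine (measure_union_le _ _).trans (add_le_add ?_ le_rfl)
  refine (measure_union_le _ _).trans (add_le_add ?_ le_rfl)
  refine (measure_union_le _ _).trans (add_le_add ?_ le_rfl)
  exact measure_union_le _ _

end Pool.Agent.Lib.MP_90732c_al.Cx
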