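import Pool.Agent.Lib.MP_90732c_al.Cx.Two

/-! Module BASE (helper84): restriction of a relation to `A`. -/

set_option autoImplicit false

open MeasureTheory
open scoped ENNReal Pointwise

namespace Pool.Agent.Lib.MP_90732c_al.Cx

open Pool.Agent.Lib.MP_90732c_al.Ab

namespace Base

variable {G : Type} [Group G]

/-- The positions of a list of edges. -/
def pos {ι : Type} (s : ι → G) : List (ι × Bool) → List G
  | [] => [1]
  | p :: l => lval s (p :: l) :: pos s l

theorem lval_mem_pos {ι : Type} (s : ι → G) : ∀ l : List (ι × Bool), lval s l ∈ pos s l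
  | [] => List.mem_singleton.2 rfl
  | _ :: _ => List.mem_cons_self

/-- The edges over `A`. -/
def res {X Ω : Type} [MulAction G Ω] {ι : Type} (s : ι → G) (B : ι → Set X) (A : Set Ω)
    (i : ι) : Set (X × Ω) := B i ×ˢ (A ∩ {ω | s i • ω ∈ A})

theorem lset_res {X Ω : Type} [MulAction G X] [MulAction G Ω] {ι : Type} (s : ι → G)
    (B : ι → Set X) (A : Set Ω) (x : X) (ω : Ω) : ∀ l : List (ι × Bool), x ∈ lset s B l →
      (∀ q ∈ pos s l, q • ω ∈ A) → (x, ω) ∈ lset s (res s B A) l
  | [], _, _ => Set.mem_univ _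
  | (i, true) :: l, h, hq => by
    have h1 : lval s l • ω ∈ A := hq _ (List.mem_cons_of_mem _ (lval_mem_pos s l))
    have h2 : (s i * lval s l) • ω ∈ A := hq _ List.mem_cons_self
    refine ⟨lset_res s B A x ω l h.1 fun q hq' => hq q (List.mem_cons_of_mem _ hq'), ?_⟩
    change lval s l • (x, ω) ∈ B i ×ˢ (A ∩ {ω | s i • ω ∈ A})
    refine ⟨h.2, h1, ?_⟩
    change s i • lval s l • ω ∈ A
    rwa [← mul_smul]
  | (i, false) :: l, h, hq => by
    have h1 : lval s l • ω ∈ A := hq _ (List.mem_cons_of_mem _ (lval_mem_pos s l))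
    have h2 : ((s i)⁻¹ * lval s l) • ω ∈ A := hq _ List.mem_cons_self
    refine ⟨lset_res s B A x ω l h.1 fun q hq' => hq q (List.mem_cons_of_mem _ hq'), ?_⟩
    change (s i)⁻¹ • lval s l • (x, ω) ∈ B i ×ˢ (A ∩ {ω | s i • ω ∈ A})
    refine ⟨h.2, ?_, ?_⟩
    · change (s i)⁻¹ • lval s l • ω ∈ A
      rwa [← mul_smul]
    · change s i • (s i)⁻¹ • lval s l • ω ∈ A
      rwa [smul_inv_smul]

/-- Finitely many lists of edges suffice, up to a small set. -/
theorem exists_finset {X : Type} [MulAction G X] [MeasurableSpace X] (μ : Measure X)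
    [IsProbabilityMeasure μ] (hG : ∀ g : G, Measurable fun x : X => g • x) {ι : Type}
    [Countable ι] (s : ι → G) (B : ι → Set X) (hB : ∀ i, MeasurableSet (B i)) (v : G)
    (hv : ∀ᵐ x ∂μ, Gen s B x v) {δ : ℝ≥0∞} (hδ : 0 < δ) :
    ∃ F : Finset (List (ι × Bool)), μ {x | ∀ l ∈ F, lval s l = v → x ∉ lset s B l} ≤ δ := by
  have hanti : Antitone fun F : Finset (List (ι × Bool)) =>
      {x : X | ∀ l ∈ F, lval s l = v → x ∉ lset s B l} :=
    fun F F' hF x hx l hl => hx l (hF hl)
  have hmeas : ∀ F : Finset (List (ι × Bool)),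
      NullMeasurableSet {x : X | ∀ l ∈ F, lval s l = v → x ∉ lset s B l} μ := by
    intro F
    apply MeasurableSet.nullMeasurableSet
    have h1 : {x : X | ∀ l ∈ F, lval s l = v → x ∉ lset s B l} =
        ⋂ l ∈ F, {x : X | lval s l = v → x ∉ lset s B l} := by
      ext x
      simp only [Set.mem_setOf_eq, Set.mem_iInter]
    rw [h1]
    refine Finset.measurableSet_biInter F fun l _ => ?_
    by_cases hl : lval s l = v
    · have h2 : {x : X | lval s l = v → x ∉ lset s B l} = (lset s B l)ᶜ := by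
        ext x
        exact ⟨fun h => h hl, fun h _ => h⟩
      rw [h2]
      exact (lset_measurable s B hB hG l).compl
    · have h2 : {x : X | lval s l = v → x ∉ lset s B l} = Set.univ := by
        ext x
        exact ⟨fun _ => Set.mem_univ _, fun _ h => absurd h hl⟩
      rw [h2]
      exact MeasurableSet.univ
  have h0 : μ (⋂ F : Finset (List (ι × Bool)),
      {x : X | ∀ l ∈ F, lval s l = v → x ∉ lset s B l}) = 0 := by
    refine measure_mono_null ?_ hv
    intro x hx hg
    obtain ⟨l, hl, hx'⟩ := (gen_iff s B x v).1 hg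
    exact Set.mem_iInter.1 hx {l} l (Finset.mem_singleton_self l) hl hx'
  rw [hanti.measure_iInter hmeas ⟨∅, measure_ne_top _ _⟩] at h0
  have h1 : (⨅ F : Finset (List (ι × Bool)),
      μ {x : X | ∀ l ∈ F, lval s l = v → x ∉ lset s B l}) < δ := by rwa [h0]
  obtain ⟨F, hF⟩ := iInf_lt_iff.1 h1
  exact ⟨F, hF.le⟩

open Classical in
/-- The restriction of a relation to `A`. -/
theorem base' : BaseStatement := by
  intro G _ _ X _ _ μ _ hμ S₀ C hS₀ hfull V δ hδ
  obtain ⟨ι, hι, s, B, hB, hgen, hC⟩ := hS₀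
  have hG : ∀ g : G, Measurable fun x : X => g • x := fun g => (hμ g).measurable
  have hv : ∀ v : G, ∀ᵐ x ∂μ, Gen s B x v := by
    intro v
    filter_upwards [hfull] with x hx
    exact (hgen x v).1 (hx v)
  choose F hF using fun v : G => exists_finset μ hG s B hB v (hv v) hδ
  refine ⟨V.biUnion fun v => (F v).biUnion fun l => (pos s l).toFinset, ?_⟩
  intro Ω _ _ P _ hP A hA
  set Q : Finset G := V.biUnion fun v => (F v).biUnion fun l => (pos s l).toFinset with hQ
  refine ⟨Gen s (res s B A), ⟨ι, hι, s, res s B A, ?_, fun y g => Iff.rfl, ?_⟩, ?_⟩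
  · intro i
    exact (hB i).prod (hA.inter ((hP (s i)).measurable hA))
  · calc ∑' i, (μ.prod P) (res s B A i) ≤ ∑' i, μ (B i) * P A := by
          refine ENNReal.tsum_le_tsum fun i => ?_
          change (μ.prod P) (B i ×ˢ (A ∩ {ω | s i • ω ∈ A})) ≤ _
          rw [Measure.prod_prod]
          gcongr
          exact Set.inter_subset_left
      _ = (∑' i, μ (B i)) * P A := ENNReal.tsum_mul_right
      _ ≤ C * P A := by gcongr
  · intro v hvV
    have hsub : {z : X × Ω | z.2 ∈ A ∧ ¬ Gen s (res s B A) z v} ⊆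
        {x | ∀ l ∈ F v, lval s l = v → x ∉ lset s B l} ×ˢ (Set.univ : Set Ω) ∪
          (Set.univ : Set X) ×ˢ ⋃ q ∈ Q, {ω | ω ∈ A ∧ q • ω ∉ A} := by
      rintro ⟨x, ω⟩ ⟨hω, hg⟩
      by_cases hx : ∀ l ∈ F v, lval s l = v → x ∉ lset s B l
      · exact Or.inl ⟨hx, Set.mem_univ _⟩
      · right
        refine ⟨Set.mem_univ _, ?_⟩
        by_contra hno
        apply hx
        intro l hl hlv hxl
        apply hg
        refine (gen_iff s (res s B A) (x, ω) v).2 ⟨l, hlv, lset_res s B A x ω l hxl ?_⟩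
        intro q hq
        by_contra hqA
        apply hno
        have hqQ : q ∈ Q := by
          rw [hQ]
          exact Finset.mem_biUnion.2 ⟨v, hvV, Finset.mem_biUnion.2 ⟨l, hl,
            List.mem_toFinset.2 hq⟩⟩
        exact Set.mem_iUnion₂.2 ⟨q, hqQ, hω, hqA⟩
    calc (μ.prod P) {z : X × Ω | z.2 ∈ A ∧ ¬ Gen s (res s B A) z v}
        ≤ (μ.prod P) ({x | ∀ l ∈ F v, lval s l = v → x ∉ lset s B l} ×ˢ (Set.univ : Set Ω) ∪
          (Set.univ : Set X) ×ˢ ⋃ q ∈ Q, {ω | ω ∈ A ∧ q • ω ∉ A}) := measure_mono hsub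
      _ ≤ (μ.prod P) ({x | ∀ l ∈ F v, lval s l = v → x ∉ lset s B l} ×ˢ (Set.univ : Set Ω)) +
          (μ.prod P) ((Set.univ : Set X) ×ˢ ⋃ q ∈ Q, {ω | ω ∈ A ∧ q • ω ∉ A}) :=
          measure_union_le _ _
      _ ≤ δ + ∑ q ∈ Q, P {ω | ω ∈ A ∧ q • ω ∉ A} := by
          rw [Measure.prod_prod, Measure.prod_prod, measure_univ, measure_univ, mul_one, one_mul]
          gcongr
          · exact hF v
          · exact measure_biUnion_finset_le Q _

end Base

/-- BASE. -/
theorem base (_hC : CstStatement) : BaseStatement := Base.base'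

end Pool.Agent.Lib.MP_90732c_al.Cx
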