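import Pool.Agent.Lib.MP_90732c_al.Cx.Two

/-! COIN: independent colouring of the classes of a relation. -/

set_option autoImplicit false

open MeasureTheory
open scoped ENNReal Pointwise

namespace Pool.Agent.Lib.MP_90732c_al.Cx.COIN

open Pool.Agent.Lib.MP_90732c_al.Ab

/-- Pulling back independent labels along an injection. -/
lemma law_map_inj {Q E : Type} {f : Q → E} (hf : Function.Injective f) :
    (law E).map (fun z : E → ℝ => fun q => z (f q)) = law Q := by
  classical
  have hm : Measurable (fun z : E → ℝ => fun q => z (f q)) :=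
    measurable_pi_lambda _ fun q => measurable_pi_apply _
  refine Measure.eq_infinitePi (μ := fun _ : Q => unif) fun s t ht => ?_
  have hpi : MeasurableSet (Set.pi (s : Set Q) t) :=
    MeasurableSet.pi s.countable_toSet fun q _ => ht q
  rw [Measure.map_apply hm hpi]
  have h1 : (fun z : E → ℝ => fun q => z (f q)) ⁻¹' (Set.pi (s : Set Q) t) =
      Set.pi ((s.map ⟨f, hf⟩ : Finset E) : Set E)
        (Function.extend f t fun _ => Set.univ) := by
    ext z
    simp only [Set.mem_preimage, Set.mem_pi, Finset.mem_coe, Finset.mem_map,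
      Function.Embedding.coeFn_mk, forall_exists_index, and_imp, forall_apply_eq_imp_iff₂]
    refine forall₂_congr fun q _ => ?_
    rw [hf.extend_apply]
  rw [h1, law, Measure.infinitePi_pi]
  · rw [Finset.prod_map]
    refine Finset.prod_congr rfl fun q _ => ?_
    rw [Function.Embedding.coeFn_mk, hf.extend_apply]
  · intro e he
    obtain ⟨q, _, rfl⟩ := Finset.mem_map.1 he
    rw [Function.Embedding.coeFn_mk, hf.extend_apply]
    exact ht q

/-- The law of `z ∘ r` depends only on the fibres of `r`. -/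
lemma law_map_congr {G E : Type} (r₁ r₂ : G → E)
    (h : ∀ a b, r₁ a = r₁ b ↔ r₂ a = r₂ b) :
    (law E).map (fun z : E → ℝ => fun g => z (r₁ g)) =
      (law E).map (fun z : E → ℝ => fun g => z (r₂ g)) := by
  let s : Setoid G := Setoid.ker r₁
  let f₁ : Quotient s → E := Quotient.lift r₁ fun a b hab => hab
  let f₂ : Quotient s → E := Quotient.lift r₂ fun a b hab => (h a b).1 hab
  have i₁ : Function.Injective f₁ := by
    intro a b
    induction a using Quotient.inductionOn with | _ a => ?_
    induction b using Quotient.inductionOn with | _ b => ?_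
    intro hab
    exact Quotient.sound hab
  have i₂ : Function.Injective f₂ := by
    intro a b
    induction a using Quotient.inductionOn with | _ a => ?_
    induction b using Quotient.inductionOn with | _ b => ?_
    intro hab
    exact Quotient.sound ((h a b).2 hab)
  have hm : ∀ f : Quotient s → E, Measurable (fun z : E → ℝ => fun q => z (f q)) := fun f =>
    measurable_pi_lambda _ fun q => measurable_pi_apply _
  have hp : Measurable (fun w : Quotient s → ℝ => fun g : G => w (Quotient.mk s g)) :=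
    measurable_pi_lambda _ fun q => measurable_pi_apply _
  have e₁ : (law E).map (fun z : E → ℝ => fun g => z (r₁ g)) =
      ((law E).map (fun z : E → ℝ => fun q => z (f₁ q))).map
        (fun w : Quotient s → ℝ => fun g : G => w (Quotient.mk s g)) := by
    rw [Measure.map_map hp (hm f₁)]
    rfl
  have e₂ : (law E).map (fun z : E → ℝ => fun g => z (r₂ g)) =
      ((law E).map (fun z : E → ℝ => fun q => z (f₂ q))).map
        (fun w : Quotient s → ℝ => fun g : G => w (Quotient.mk s g)) := by
    rw [Measure.map_map hp (hm f₂)]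
    rfl
  rw [e₁, e₂, law_map_inj i₁, law_map_inj i₂]

section

variable {G : Type} [Group G] {Y : Type} [MulAction G Y]

/-- The positions `h`, `k` (standing for the points `h⁻¹ • y`, `k⁻¹ • y`) are equivalent. -/
def Eqv (S : Y → G → Prop) (y : Y) (h k : G) : Prop := S (h⁻¹ • y) (k⁻¹ * h)

lemma eqv_refl {S : Y → G → Prop} (hS : IsRel S) (y : Y) (h : G) : Eqv S y h h := by
  unfold Eqv
  rw [inv_mul_cancel]
  exact hS.one _

lemma eqv_symm {S : Y → G → Prop} (hS : IsRel S) {y : Y} {h k : G} (hk : Eqv S y h k) :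
    Eqv S y k h := by
  have h1 := hS.inv _ _ hk
  unfold Eqv
  have e1 : (k⁻¹ * h) • h⁻¹ • y = k⁻¹ • y := by
    rw [smul_smul, mul_assoc, mul_inv_cancel, mul_one]
  have e2 : (k⁻¹ * h)⁻¹ = h⁻¹ * k := by rw [mul_inv_rev, inv_inv]
  rwa [e1, e2] at h1

lemma eqv_trans {S : Y → G → Prop} (hS : IsRel S) {y : Y} {h k m : G} (hk : Eqv S y h k)
    (hm : Eqv S y k m) : Eqv S y h m := by
  have e1 : (k⁻¹ * h) • h⁻¹ • y = k⁻¹ • y := by
    rw [smul_smul, mul_assoc, mul_inv_cancel, mul_one]
  have h1 := hS.mul _ (k⁻¹ * h) (m⁻¹ * k) hk (by rw [e1]; exact hm)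
  unfold Eqv
  have e2 : m⁻¹ * k * (k⁻¹ * h) = m⁻¹ * h := by
    rw [mul_assoc, ← mul_assoc k, mul_inv_cancel, one_mul]
  rwa [e2] at h1

lemma eqv_smul (S : Y → G → Prop) (g : G) (y : Y) (h k : G) :
    Eqv S (g • y) h k ↔ Eqv S y (g⁻¹ * h) (g⁻¹ * k) := by
  unfold Eqv
  have e1 : (g⁻¹ * h)⁻¹ • y = h⁻¹ • g • y := by
    rw [mul_inv_rev, inv_inv, mul_smul]
  have e2 : (g⁻¹ * k)⁻¹ * (g⁻¹ * h) = k⁻¹ * h := by
    rw [mul_inv_rev, inv_inv, mul_assoc, ← mul_assoc g, mul_inv_cancel, one_mul]
  rw [e1, e2]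

lemma exists_code {S : Y → G → Prop} (hS : IsRel S) (e : G → ℕ) (y : Y) (h : G) :
    ∃ n, ∃ k, e k = n ∧ Eqv S y h k := ⟨e h, h, rfl, eqv_refl hS y h⟩

open Classical in
/-- The least code of the class of the position `h`. -/
noncomputable def idx {S : Y → G → Prop} (hS : IsRel S) (e : G → ℕ) (y : Y) (h : G) : ℕ :=
  Nat.find (exists_code hS e y h)

lemma idx_eq_iff {S : Y → G → Prop} (hS : IsRel S) {e : G → ℕ} (he : Function.Injective e)
    (y : Y) (h k : G) : idx hS e y h = idx hS e y k ↔ Eqv S y h k := by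
  classical
  constructor
  · intro hk
    obtain ⟨a, ha, ha'⟩ := Nat.find_spec (exists_code hS e y h)
    obtain ⟨b, hb, hb'⟩ := Nat.find_spec (exists_code hS e y k)
    have hab : a = b := he (by rw [ha, hb]; exact hk)
    subst hab
    exact eqv_trans hS ha' (eqv_symm hS hb')
  · intro hk
    have hiff : ∀ n, (∃ a, e a = n ∧ Eqv S y h a) ↔ ∃ a, e a = n ∧ Eqv S y k a := fun n =>
      ⟨fun ⟨a, h1, h2⟩ => ⟨a, h1, eqv_trans hS (eqv_symm hS hk) h2⟩,
        fun ⟨a, h1, h2⟩ => ⟨a, h1, eqv_trans hS hk h2⟩⟩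
    refine le_antisymm (Nat.find_min' _ ?_) (Nat.find_min' _ ?_)
    · exact (hiff _).2 (Nat.find_spec (exists_code hS e y k))
    · exact (hiff _).1 (Nat.find_spec (exists_code hS e y h))

variable [Countable G] [MeasurableSpace Y]

omit [Countable G] in
lemma measurableSet_eqv {S : Y → G → Prop} (hg : ∀ g : G, Measurable fun y : Y => g • y)
    (hSm : ∀ g, MeasurableSet {y | S y g}) (h k : G) : MeasurableSet {y | Eqv S y h k} :=
  (hg h⁻¹) (hSm (k⁻¹ * h))

lemma measurable_idx {S : Y → G → Prop} (hS : IsRel S) (e : G → ℕ)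
    (hg : ∀ g : G, Measurable fun y : Y => g • y) (hSm : ∀ g, MeasurableSet {y | S y g})
    (h : G) : Measurable fun y => idx hS e y h := by
  classical
  refine measurable_find (fun y => exists_code hS e y h) fun n => ?_
  have h1 : {y : Y | ∃ k, e k = n ∧ Eqv S y h k} =
      ⋃ k : G, {y : Y | e k = n ∧ Eqv S y h k} := by
    ext y; simp
  rw [h1]
  refine MeasurableSet.iUnion fun k => ?_
  by_cases hk : e k = n
  · have h2 : {y : Y | e k = n ∧ Eqv S y h k} = {y | Eqv S y h k} := by
      ext y; simp [hk]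
    rw [h2]
    exact measurableSet_eqv hg hSm h k
  · have h2 : {y : Y | e k = n ∧ Eqv S y h k} = ∅ := by
      ext y; simp [hk]
    rw [h2]
    exact MeasurableSet.empty

/-- The labels of the classes. -/
noncomputable def Phi {S : Y → G → Prop} (hS : IsRel S) (e : G → ℕ) (p : Y × (ℕ → ℝ)) :
    Y × Lab G := (p.1, fun h => p.2 (idx hS e p.1 h))

lemma measurable_Phi {S : Y → G → Prop} (hS : IsRel S) (e : G → ℕ)
    (hg : ∀ g : G, Measurable fun y : Y => g • y) (hSm : ∀ g, MeasurableSet {y | S y g}) :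
    Measurable (Phi hS e) := by
  refine Measurable.prodMk measurable_fst ?_
  refine measurable_pi_lambda (X := fun _ : G => ℝ) _ fun h => ?_
  have h1 : Measurable fun p : ℕ × (ℕ → ℝ) => p.2 p.1 :=
    measurable_from_prod_countable_right fun n => measurable_pi_apply n
  exact h1.comp (((measurable_idx hS e hg hSm h).comp measurable_fst).prodMk measurable_snd)

omit [Countable G] [MeasurableSpace Y] in
lemma eqv_one_inv (S : Y → G → Prop) (y : Y) (g : G) : Eqv S y 1 (g⁻¹ * 1) ↔ S y g := by
  unfold Eqv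
  rw [inv_one, one_smul, mul_one, mul_one, inv_inv]

end

end Pool.Agent.Lib.MP_90732c_al.Cx.COIN

namespace Pool.Agent.Lib.MP_90732c_al.Cx

open Pool.Agent.Lib.MP_90732c_al.Ab COIN

theorem coin : CoinStatement := by
  classical
  intro G _ _ Y _ _ _ ν _ hν S hS hSm q hq0 hq1
  obtain ⟨e, he⟩ := exists_injective_nat G
  have hg : ∀ g : G, Measurable fun y : Y => g • y := fun g => (hν g).measurable
  have hPhi := measurable_Phi hS e hg hSm
  let P : Measure (Y × Lab G) := (ν.prod (law ℕ)).map (Phi hS e)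
  have : IsProbabilityMeasure P := Measure.isProbabilityMeasure_map hPhi.aemeasurable
  have hP : ∀ B : Set (Y × Lab G), MeasurableSet B →
      P B = ∫⁻ y, law ℕ {z | Phi hS e (y, z) ∈ B} ∂ν := by
    intro B hB
    change (ν.prod (law ℕ)).map (Phi hS e) B = _
    rw [Measure.map_apply hPhi hB, Measure.prod_apply (hPhi hB)]
    rfl
  have hgm : ∀ g : G, Measurable fun ω : Y × Lab G => g • ω := fun g =>
    ((hg g).comp measurable_fst).prodMk
      ((lam_measurePreserving g).measurable.comp measurable_snd)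
  have hcoord : ∀ h : G, Measurable fun ω : Y × Lab G => ω.2 h := fun h =>
    (measurable_pi_apply (X := fun _ : G => ℝ) h).comp measurable_snd
  have hlt : ∀ h : G, MeasurableSet {ω : Y × Lab G | ω.2 h < q} := fun h =>
    measurableSet_lt (hcoord h) measurable_const
  refine ⟨Y × Lab G, inferInstance, inferInstance, inferInstance, P, inferInstance,
    {ω | ¬ ω.2 1 < q}, ?_, (hlt 1).compl, ?_, ?_, ?_⟩
  · intro g
    refine ⟨hgm g, Measure.ext fun B hB => ?_⟩
    rw [Measure.map_apply (hgm g) hB, hP _ (hgm g hB), hP B hB]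
    have hF : Measurable fun y : Y => law ℕ {z | Phi hS e (y, z) ∈ B} :=
      measurable_measure_prodMk_left (hPhi hB)
    rw [← (hν g).lintegral_comp hF]
    refine lintegral_congr fun y => ?_
    have hC : MeasurableSet {ω : G → ℝ | ((g • y, ω) : Y × Lab G) ∈ B} :=
      measurable_prodMk_left hB
    have hm : ∀ r : G → ℕ, Measurable (fun z : ℕ → ℝ => fun h : G => z (r h)) := fun r =>
      measurable_pi_lambda _ fun h => measurable_pi_apply _
    have h1 := law_map_congr (fun h : G => idx hS e y (g⁻¹ * h))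
      (fun h : G => idx hS e (g • y) h) fun a b => by
        change idx hS e y (g⁻¹ * a) = idx hS e y (g⁻¹ * b) ↔
          idx hS e (g • y) a = idx hS e (g • y) b
        rw [idx_eq_iff hS he, idx_eq_iff hS he, eqv_smul]
    have h2 := congrArg (fun m : Measure (G → ℝ) =>
      m {ω : G → ℝ | ((g • y, ω) : Y × Lab G) ∈ B}) h1
    change (law ℕ).map _ _ = (law ℕ).map _ _ at h2
    rw [Measure.map_apply (hm _) hC, Measure.map_apply (hm _) hC] at h2
    exact h2
  · have h0 : ({ω : Y × Lab G | ¬ ω.2 1 < q} : Set (Y × Lab G))ᶜ = {ω | ω.2 1 < q} := by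
      ext ω; simp
    rw [h0, hP _ (hlt 1)]
    have h1 : ∀ y : Y, law ℕ {z : ℕ → ℝ | Phi hS e (y, z) ∈ {ω : Y × Lab G | ω.2 1 < q}} =
        ENNReal.ofReal q := by
      intro y
      have h2 := law_cyl (E := ℕ) {idx hS e y 1} hq0 hq1
      rw [Finset.card_singleton, pow_one] at h2
      rw [← h2]
      congr 1
      ext z
      simp only [Finset.mem_singleton, forall_eq]
      rfl
    simp only [h1, lintegral_const, measure_univ, mul_one]
  · intro g
    have hB : MeasurableSet {ω : Y × Lab G | ω ∉ {ω : Y × Lab G | ¬ ω.2 1 < q} ∧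
        g • ω ∈ {ω : Y × Lab G | ¬ ω.2 1 < q}} :=
      (hlt 1).compl.compl.inter (hgm g (hlt 1).compl)
    change (ν.prod (law ℕ)).map (Phi hS e) _ ≤ _
    rw [Measure.map_apply hPhi hB]
    have hN : MeasurableSet {y : Y | ¬ S y g} := (hSm g).compl
    rw [← (measurePreserving_fst (μ := ν) (ν := law ℕ)).measure_preimage hN.nullMeasurableSet]
    refine measure_mono fun p hp => ?_
    obtain ⟨h1, h2⟩ := hp
    change ¬ ¬ p.2 (idx hS e p.1 1) < q at h1
    change ¬ p.2 (idx hS e p.1 (g⁻¹ * 1)) < q at h2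
    change ¬ S p.1 g
    intro hSg
    have h3 := (idx_eq_iff hS he p.1 _ _).2 ((eqv_one_inv S p.1 g).2 hSg)
    rw [h3] at h1
    exact h1 h2
  · intro g
    have hB : MeasurableSet {ω : Y × Lab G | ω ∉ {ω : Y × Lab G | ¬ ω.2 1 < q} ∧
        g • ω ∉ {ω : Y × Lab G | ¬ ω.2 1 < q}} :=
      (hlt 1).compl.compl.inter (hgm g (hlt 1).compl).compl
    rw [hP _ hB]
    have hle : ∀ y : Y, law ℕ {z : ℕ → ℝ | Phi hS e (y, z) ∈ {ω : Y × Lab G |
        ω ∉ {ω : Y × Lab G | ¬ ω.2 1 < q} ∧ g • ω ∉ {ω : Y × Lab G | ¬ ω.2 1 < q}}} ≤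
        ENNReal.ofReal (q ^ 2) + Set.indicator {y : Y | S y g} 1 y := by
      intro y
      by_cases hy : S y g
      · rw [Set.indicator_of_mem (show y ∈ {y : Y | S y g} from hy)]
        exact prob_le_one.trans le_add_self
      · refine le_trans ?_ le_self_add
        have hne : idx hS e y 1 ≠ idx hS e y (g⁻¹ * 1) := fun h =>
          hy ((eqv_one_inv S y g).1 ((idx_eq_iff hS he y _ _).1 h))
        have h2 := law_cyl (E := ℕ) {idx hS e y 1, idx hS e y (g⁻¹ * 1)} hq0 hq1
        rw [Finset.card_pair hne, ← ENNReal.ofReal_pow hq0] at h2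
        rw [← h2]
        refine measure_mono fun z hz => ?_
        obtain ⟨h3, h4⟩ := hz
        change ¬ ¬ z (idx hS e y 1) < q at h3
        change ¬ ¬ z (idx hS e y (g⁻¹ * 1)) < q at h4
        intro f hf
        rcases Finset.mem_insert.1 hf with rfl | hf
        · exact not_not.1 h3
        · rw [Finset.mem_singleton] at hf
          subst hf
          exact not_not.1 h4
    refine (lintegral_mono hle).trans ?_
    rw [lintegral_add_left measurable_const, lintegral_const, measure_univ, mul_one,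
      lintegral_indicator_one (hSm g)]

end Pool.Agent.Lib.MP_90732c_al.Cx
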