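import Pool.Agent.Lib.MP_90732c_al.Cx.Two

/-! Groups of bounded exponent have cost one: the walks, found in an ultrapower. -/

set_option autoImplicit false

open Filter

namespace Pool.Agent.Lib.MP_90732c_al.Cx.Germs

/-! ### Walks with disjoint sets of edges -/

section disjoint

variable {Γ : Type} [Group Γ]

/-- From single walks with fresh edges to families of walks with disjoint sets of edges. -/
lemma family {n : ℕ} {P : Γ × Γ → Prop} {x : Γ}
    (h : ∀ Φ : Finset Γ, ∃ w : List (Γ × Bool), w.length ≤ 2 * n ∧ (∀ m ∈ mvs x x w, P m) ∧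
      ∀ b ∈ bss x x w, b ∉ Φ) (N : ℕ) :
    ∃ w : Fin N → List (Γ × Bool), (∀ r, (w r).length ≤ 2 * n) ∧
      (∀ r, ∀ m ∈ mvs x x (w r), P m) ∧
      ∀ r r', r' ≠ r → ∀ b ∈ bss x x (w r), b ∉ bss x x (w r') := by
  classical
  induction N with
  | zero => exact ⟨fun r => r.elim0, fun r => r.elim0, fun r => r.elim0, fun r => r.elim0⟩
  | succ N ih =>
    obtain ⟨w, h1, h2, h3⟩ := ih
    obtain ⟨v, h4, h5, h6⟩ := h (Finset.univ.biUnion fun r => (bss x x (w r)).toFinset)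
    have h6' : ∀ r, ∀ b ∈ bss x x v, b ∉ bss x x (w r) := by
      intro r b hb hb'
      exact h6 b hb (Finset.mem_biUnion.2 ⟨r, Finset.mem_univ _, List.mem_toFinset.2 hb'⟩)
    refine ⟨Fin.cons v w, ?_, ?_, ?_⟩
    · intro r
      refine Fin.cases ?_ (fun r => ?_) r
      · simpa using h4
      · simpa using h1 r
    · intro r
      refine Fin.cases ?_ (fun r => ?_) r
      · simpa using h5
      · simpa using h2 r
    · intro r r'
      refine Fin.cases ?_ (fun r => ?_) r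
      · refine Fin.cases ?_ (fun r' => ?_) r'
        · intro hne; exact absurd rfl hne
        · intro _ b hb
          rw [Fin.cons_zero] at hb
          rw [Fin.cons_succ]
          exact h6' r' b hb
      · refine Fin.cases ?_ (fun r' => ?_) r'
        · intro _ b hb
          rw [Fin.cons_succ] at hb
          rw [Fin.cons_zero]
          exact fun hb' => h6' r b hb' hb
        · intro hne b hb
          rw [Fin.cons_succ] at hb ⊢
          exact h3 r r' (fun h => hne (by rw [h])) b hb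

/-- The positions of a walk inside a subgroup. -/
lemma mvs_mem (K : Subgroup Γ) {x : Γ} (hx : x ∈ K) (w : List (Γ × Bool)) :
    ∀ p : Γ, p ∈ K → (∀ m ∈ mvs x p w, m.2 ∈ K) → ∀ m ∈ mvs x p w, m.1 ∈ K := by
  induction w with
  | nil =>
    intro p hp _ m hm
    simp only [mvs, List.mem_singleton] at hm
    rw [hm]; exact hp
  | cons a w ih =>
    intro p hp h m hm
    simp only [mvs, List.mem_cons] at hm h
    have ha : a.1 ∈ K := h (p, a.1) (Or.inl rfl)
    have hs : stp x p a ∈ K := by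
      unfold stp
      split_ifs
      · exact K.mul_mem hx (K.mul_mem ha hp)
      · exact K.mul_mem (K.inv_mem hx) (K.mul_mem ha hp)
    rcases hm with rfl | hm
    · exact hp
    · exact ih (stp x p a) hs (fun m hm => h m (Or.inr hm)) m hm

end disjoint

/-! ### The ultrapower -/

variable {G : Type} [Group G]

/-- The ultrapower. -/
abbrev Us (G : Type) : Type := Germ (hyperfilter ℕ : Filter ℕ) G

/-- A representative. -/
noncomputable def rp (γ : Us G) : ℕ → G := Quotient.out γ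

omit [Group G] in
lemma coe_rp (γ : Us G) : ((rp γ : ℕ → G) : Us G) = γ := Quotient.out_eq γ

omit [Group G] in
lemma rp_coe (u : ℕ → G) : ∀ᶠ j in (hyperfilter ℕ : Filter ℕ), rp (u : Us G) j = u j :=
  Germ.coe_eq.1 (coe_rp (u : Us G))

lemma rp_mul (γ δ : Us G) :
    ∀ᶠ j in (hyperfilter ℕ : Filter ℕ), rp (γ * δ) j = rp γ j * rp δ j := by
  have h : ((rp (γ * δ) : ℕ → G) : Us G) = ((rp γ * rp δ : ℕ → G) : Us G) := by
    rw [coe_rp, Germ.coe_mul, coe_rp, coe_rp]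
  exact Germ.coe_eq.1 h

lemma rp_inv (γ : Us G) : ∀ᶠ j in (hyperfilter ℕ : Filter ℕ), rp γ⁻¹ j = (rp γ j)⁻¹ := by
  have h : ((rp γ⁻¹ : ℕ → G) : Us G) = (((rp γ)⁻¹ : ℕ → G) : Us G) := by
    rw [coe_rp, Germ.coe_inv, coe_rp]
  exact Germ.coe_eq.1 h

omit [Group G] in
lemma rp_ne {γ δ : Us G} (h : γ ≠ δ) :
    ∀ᶠ j in (hyperfilter ℕ : Filter ℕ), rp γ j ≠ rp δ j := by
  rw [Ultrafilter.eventually_not]
  intro h2
  apply h
  rw [← coe_rp γ, ← coe_rp δ]
  exact Germ.coe_eq.2 h2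

lemma exp_us {n : ℕ} (h : ∀ g : G, g ^ n = 1) (γ : Us G) : γ ^ n = 1 := by
  induction γ using Germ.inductionOn with
  | h u =>
    rw [← Germ.coe_pow]
    have : (u ^ n : ℕ → G) = 1 := by funext j; exact h (u j)
    rw [this]
    rfl

/-- The constants. -/
noncomputable def cst (G : Type) [Group G] : G →* Us G :=
  (Germ.coeMulHom (hyperfilter ℕ : Filter ℕ)).comp (Pi.constMonoidHom ℕ G)

lemma rp_cst (g : G) : ∀ᶠ j in (hyperfilter ℕ : Filter ℕ), rp (cst G g) j = g :=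
  rp_coe (fun _ => g)

lemma cst_injective : Function.Injective (cst G) := by
  intro g h hgh
  have h1 := rp_cst g
  rw [hgh] at h1
  obtain ⟨j, h2, h3⟩ := (h1.and (rp_cst h)).exists
  rw [← h2, h3]

lemma infinite_cst [Infinite G] : (((cst G).range : Subgroup (Us G)) : Set (Us G)).Infinite := by
  rw [MonoidHom.coe_range]
  exact Set.infinite_range_of_injective cst_injective

/-! ### Evaluation of walks -/

/-- The evaluation of a list of steps. -/
noncomputable def ev (j : ℕ) (w : List (Us G × Bool)) : List (G × Bool) :=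
  w.map fun a => (rp a.1 j, a.2)

lemma rp_stp (x p : Us G) (a : Us G × Bool) :
    ∀ᶠ j in (hyperfilter ℕ : Filter ℕ),
      rp (stp x p a) j = stp (rp x j) (rp p j) (rp a.1 j, a.2) := by
  filter_upwards [rp_mul x (a.1 * p), rp_mul x⁻¹ (a.1 * p), rp_mul a.1 p, rp_inv x] with
    j h1 h2 h3 h4
  unfold stp
  split_ifs
  · rw [h1, h3]
  · rw [h2, h3, h4]

lemma rp_bas (x p : Us G) (a : Us G × Bool) :
    ∀ᶠ j in (hyperfilter ℕ : Filter ℕ),
      rp (bas x p a) j = bas (rp x j) (rp p j) (rp a.1 j, a.2) := by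
  filter_upwards [rp_mul x⁻¹ (a.1 * p), rp_mul a.1 p, rp_inv x] with j h2 h3 h4
  unfold bas
  split_ifs
  · rw [h3]
  · rw [h2, h3, h4]

lemma rp_mvs (x : Us G) (w : List (Us G × Bool)) : ∀ p : Us G,
    ∀ᶠ j in (hyperfilter ℕ : Filter ℕ),
      mvs (rp x j) (rp p j) (ev j w) = (mvs x p w).map fun m => (rp m.1 j, rp m.2 j) := by
  induction w with
  | nil =>
    intro p
    filter_upwards [rp_inv p] with j h1
    simp [mvs, ev, h1]
  | cons a w ih =>
    intro p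
    filter_upwards [rp_stp x p a, ih (stp x p a)] with j h1 h2
    simp only [mvs, ev, List.map_cons] at h2 ⊢
    rw [← h1, ← h2]

lemma rp_bss (x : Us G) (w : List (Us G × Bool)) : ∀ p : Us G,
    ∀ᶠ j in (hyperfilter ℕ : Filter ℕ),
      bss (rp x j) (rp p j) (ev j w) = (bss x p w).map fun b => rp b j := by
  induction w with
  | nil =>
    intro p
    exact Eventually.of_forall fun j => by simp [bss, ev]
  | cons a w ih =>
    intro p
    filter_upwards [rp_stp x p a, rp_bas x p a, ih (stp x p a)] with j h1 h2 h3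
    simp only [bss, ev, List.map_cons] at h3 ⊢
    rw [← h1, ← h2, ← h3]

/-- Evaluation of a family of walks with disjoint sets of edges. -/
lemma eval {n N : ℕ} (x : Us G) (w : Fin N → List (Us G × Bool))
    (h1 : ∀ r, (w r).length ≤ 2 * n) {P : Us G × Us G → Prop} {Q : ℕ → G × G → Prop}
    (hPQ : ∀ m, P m → ∀ᶠ j in (hyperfilter ℕ : Filter ℕ), Q j (rp m.1 j, rp m.2 j))
    (h2 : ∀ r, ∀ m ∈ mvs x x (w r), P m)
    (h3 : ∀ r r', r' ≠ r → ∀ b ∈ bss x x (w r), b ∉ bss x x (w r')) :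
    ∀ᶠ j in (hyperfilter ℕ : Filter ℕ), ∃ v : Fin N → List (G × Bool),
      (∀ r, (v r).length ≤ 2 * n) ∧
      (∀ r, ∀ m ∈ mvs (rp x j) (rp x j) (v r), Q j m) ∧
      ∀ r r', r' ≠ r → ∀ b ∈ bss (rp x j) (rp x j) (v r), b ∉ bss (rp x j) (rp x j) (v r') := by
  have e1 : ∀ᶠ j in (hyperfilter ℕ : Filter ℕ), ∀ r,
      mvs (rp x j) (rp x j) (ev j (w r)) = (mvs x x (w r)).map fun m => (rp m.1 j, rp m.2 j) :=
    eventually_all.2 fun r => rp_mvs x (w r) x
  have e2 : ∀ᶠ j in (hyperfilter ℕ : Filter ℕ), ∀ r,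
      bss (rp x j) (rp x j) (ev j (w r)) = (bss x x (w r)).map fun b => rp b j :=
    eventually_all.2 fun r => rp_bss x (w r) x
  have e3 : ∀ᶠ j in (hyperfilter ℕ : Filter ℕ), ∀ r, ∀ m ∈ mvs x x (w r),
      Q j (rp m.1 j, rp m.2 j) :=
    eventually_all.2 fun r => (eventually_all_finite (List.finite_toSet _)).2
      fun m hm => hPQ m (h2 r m hm)
  have e4 : ∀ᶠ j in (hyperfilter ℕ : Filter ℕ), ∀ r r', r' ≠ r → ∀ b ∈ bss x x (w r),
      ∀ b' ∈ bss x x (w r'), rp b j ≠ rp b' j := by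
    refine eventually_all.2 fun r => eventually_all.2 fun r' => ?_
    by_cases hr : r' ≠ r
    · have : ∀ᶠ j in (hyperfilter ℕ : Filter ℕ), ∀ b ∈ bss x x (w r),
          ∀ b' ∈ bss x x (w r'), rp b j ≠ rp b' j := by
        refine (eventually_all_finite (List.finite_toSet _)).2 fun b hb => ?_
        refine (eventually_all_finite (List.finite_toSet _)).2 fun b' hb' => ?_
        exact rp_ne fun h => h3 r r' hr b hb (h ▸ hb')
      filter_upwards [this] with j hj _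
      exact hj
    · exact Eventually.of_forall fun j h => absurd h hr
  filter_upwards [e1, e2, e3, e4] with j f1 f2 f3 f4
  refine ⟨fun r => ev j (w r), ?_, ?_, ?_⟩
  · intro r
    simpa [ev] using h1 r
  · intro r m hm
    rw [f1 r, List.mem_map] at hm
    obtain ⟨m', hm', rfl⟩ := hm
    exact f3 r m' hm'
  · intro r r' hr b hb hb'
    rw [f2 r, List.mem_map] at hb
    rw [f2 r', List.mem_map] at hb'
    obtain ⟨b1, hb1, rfl⟩ := hb
    obtain ⟨b2, hb2, h⟩ := hb'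
    exact f4 r r' hr b1 hb1 b2 hb2 h.symm

/-! ### The subgroup of the bounded elements -/

/-- The elements on which `ψ` is bounded. -/
noncomputable def bdd (ψ : G → ℝ) (hmul : ∀ g h, ψ (g * h) ≤ ψ g + ψ h)
    (hinv : ∀ g, ψ g⁻¹ = ψ g) : Subgroup (Us G) where
  carrier := {γ | ∃ C : ℝ, ∀ᶠ j in (hyperfilter ℕ : Filter ℕ), ψ (rp γ j) ≤ C}
  one_mem' := by
    refine ⟨ψ 1, ?_⟩
    have h : ((1 : ℕ → G) : Us G) = 1 := rfl
    filter_upwards [rp_coe (1 : ℕ → G)] with j hj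
    rw [h] at hj
    rw [hj]
    exact le_rfl
  mul_mem' := by
    rintro γ δ ⟨C, hC⟩ ⟨C', hC'⟩
    refine ⟨C + C', ?_⟩
    filter_upwards [hC, hC', rp_mul γ δ] with j h1 h2 h3
    rw [h3]
    exact (hmul _ _).trans (add_le_add h1 h2)
  inv_mem' := by
    rintro γ ⟨C, hC⟩
    refine ⟨C, ?_⟩
    filter_upwards [hC, rp_inv γ] with j h1 h2
    rw [h2, hinv]
    exact h1

section bdd

variable (ψ : G → ℝ) (hmul : ∀ g h, ψ (g * h) ≤ ψ g + ψ h) (hinv : ∀ g, ψ g⁻¹ = ψ g)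

lemma mem_bdd {γ : Us G} : γ ∈ bdd ψ hmul hinv ↔
    ∃ C : ℝ, ∀ᶠ j in (hyperfilter ℕ : Filter ℕ), ψ (rp γ j) ≤ C := Iff.rfl

lemma cst_mem_bdd (g : G) : cst G g ∈ bdd ψ hmul hinv := by
  refine ⟨ψ g, ?_⟩
  filter_upwards [rp_cst g] with j hj
  rw [hj]

lemma range_le_bdd : (cst G).range ≤ bdd ψ hmul hinv := by
  rintro _ ⟨g, rfl⟩
  exact cst_mem_bdd ψ hmul hinv g

lemma not_mem_bdd {γ : Us G} (h : γ ∉ bdd ψ hmul hinv) (C : ℝ) :
    ∀ᶠ j in (hyperfilter ℕ : Filter ℕ), C ≤ ψ (rp γ j) := by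
  rw [mem_bdd, not_exists] at h
  have h1 := h C
  rw [← Ultrafilter.eventually_not] at h1
  filter_upwards [h1] with j hj
  exact (not_le.1 hj).le

end bdd

/-- For finitely many elements of the subgroup a common bound. -/
lemma exists_bound (ψ : G → ℝ) (hmul : ∀ g h, ψ (g * h) ≤ ψ g + ψ h)
    (hinv : ∀ g, ψ g⁻¹ = ψ g) (S : Set (Us G)) (hS : S.Finite) (h : ∀ γ ∈ S, γ ∈ bdd ψ hmul hinv) :
    ∃ R : ℝ, ∀ γ ∈ S, ∀ᶠ j in (hyperfilter ℕ : Filter ℕ), ψ (rp γ j) ≤ R := by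
  classical
  choose! C hC using h
  obtain ⟨R, hR⟩ := (hS.image C).bddAbove
  refine ⟨R, fun γ hγ => ?_⟩
  filter_upwards [hC γ hγ] with j hj
  exact hj.trans (hR (Set.mem_image_of_mem C hγ))

end Pool.Agent.Lib.MP_90732c_al.Cx.Germs

namespace Pool.Agent.Lib.MP_90732c_al.Cx

open Germs

theorem germ (hL : LawStatement) : GermStatement := by
  classical
  intro G _ _ _ n hn hexp ψ h0 hmul hinv hunb T N₁ N₂
  choose u hu using fun j : ℕ => hunb (j : ℝ)
  -- the ultrapower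
  set K : Subgroup (Us G) := bdd ψ hmul hinv with hK
  set L : Subgroup (Us G) := (cst G).range with hLdef
  have hLK : L ≤ K := range_le_bdd ψ hmul hinv
  have hLinf : (L : Set (Us G)).Infinite := infinite_cst
  have hKinf : (K : Set (Us G)).Infinite := hLinf.mono hLK
  have hexp' : ∀ γ : Us G, γ ^ n = 1 := exp_us hexp
  set s : Us G := (u : Us G) with hs
  have hsrp : ∀ᶠ j in (hyperfilter ℕ : Filter ℕ), rp s j = u j := rp_coe u
  have hU : (hyperfilter ℕ : Filter ℕ) ≤ atTop := by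
    rw [← Nat.cofinite_eq_atTop]
    exact hyperfilter_le_cofinite
  have hsbig : ∀ C : ℝ, ∀ᶠ j in (hyperfilter ℕ : Filter ℕ), C ≤ ψ (u j) := by
    intro C
    obtain ⟨m, hm⟩ := exists_nat_ge C
    refine (eventually_ge_atTop m).filter_mono hU |>.mono fun j hj => ?_
    exact hm.trans ((Nat.cast_le.2 hj).trans (hu j))
  have hsK : s ∉ K := by
    rintro ⟨C, hC⟩
    obtain ⟨j, h1, h2, h3⟩ := (hC.and (hsrp.and (hsbig (C + 1)))).exists
    rw [h2] at h1
    linarith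
  set X : G → Us G := fun t => s * cst G t * s⁻¹ with hX
  -- the walks for the conjugates of the generators
  have stepA : ∀ t ∈ T, X t ∉ K → ∃ w : Fin N₁ → List (Us G × Bool),
      (∀ r, (w r).length ≤ 2 * n) ∧
      (∀ r, ∀ m ∈ mvs (X t) (X t) (w r), m.2 ∈ K ∧ m.1 * s ∉ K) ∧
      ∀ r r', r' ≠ r → ∀ b ∈ bss (X t) (X t) (w r), b ∉ bss (X t) (X t) (w r') := by
    intro t _ ht
    refine family (P := fun m => m.2 ∈ K ∧ m.1 * s ∉ K) (fun Φ => ?_) N₁
    obtain ⟨w, h1, h2, h3⟩ := hL (Us G) n hn hexp' K hKinf (X t) ht Φ {s⁻¹} (by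
      intro f hf
      rw [Finset.mem_singleton] at hf
      subst hf
      refine ⟨fun h => hsK (by simpa using K.inv_mem h), fun h => ?_⟩
      have h4 : s⁻¹ * (X t)⁻¹ = (cst G t)⁻¹ * s⁻¹ := by
        simp only [hX, mul_inv_rev, inv_inv]
        group
      rw [h4] at h
      have h5 := K.mul_mem (hLK ⟨t, rfl⟩ : cst G t ∈ K) h
      rw [mul_inv_cancel_left] at h5
      exact hsK (by simpa using K.inv_mem h5))
    refine ⟨w, h1, fun m hm => ?_, h3⟩
    obtain ⟨h5, h6⟩ := h2 m hm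
    refine ⟨h5, ?_⟩
    have := h6 s⁻¹ (Finset.mem_singleton_self _)
    rwa [inv_inv] at this
  choose! w hw1 hw2 hw3 using stepA
  -- the auxiliary elements
  set Λ : Finset (Us G) := T.biUnion fun t =>
    if X t ∈ K then {X t} else
      Finset.univ.biUnion fun r => ((mvs (X t) (X t) (w t r)).map Prod.snd).toFinset with hΛ
  have hΛ1 : ∀ t ∈ T, X t ∈ K → X t ∈ Λ := by
    intro t ht h
    rw [hΛ, Finset.mem_biUnion]
    exact ⟨t, ht, by rw [if_pos h]; exact Finset.mem_singleton_self _⟩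
  have hΛ2 : ∀ t ∈ T, X t ∉ K → ∀ r, ∀ m ∈ mvs (X t) (X t) (w t r), m.2 ∈ Λ := by
    intro t ht h r m hm
    rw [hΛ, Finset.mem_biUnion]
    refine ⟨t, ht, ?_⟩
    rw [if_neg h, Finset.mem_biUnion]
    exact ⟨r, Finset.mem_univ _, List.mem_toFinset.2 (List.mem_map_of_mem hm)⟩
  have hΛK : ∀ γ ∈ Λ, γ ∈ K := by
    intro γ hγ
    rw [hΛ, Finset.mem_biUnion] at hγ
    obtain ⟨t, ht, h⟩ := hγ
    by_cases hX' : X t ∈ K
    · rw [if_pos hX', Finset.mem_singleton] at h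
      rw [h]; exact hX'
    · rw [if_neg hX', Finset.mem_biUnion] at h
      obtain ⟨r, _, h⟩ := h
      rw [List.mem_toFinset, List.mem_map] at h
      obtain ⟨m, hm, rfl⟩ := h
      exact (hw2 t ht hX' r m hm).1
  set c : ℕ := Λ.card with hc
  let e : Fin c ≃ Λ := Λ.equivFin.symm
  set k : Fin c → Us G := fun i => (e i : Us G) with hk
  have hkK : ∀ i, k i ∈ K := fun i => hΛK _ (e i).2
  have hkΛ : ∀ γ ∈ Λ, ∃ i, k i = γ := fun γ hγ => ⟨e.symm ⟨γ, hγ⟩, by simp [hk]⟩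
  -- the walks for the auxiliary elements
  have stepB : ∀ i, k i ∉ L → ∃ w : Fin (N₂ c) → List (Us G × Bool),
      (∀ r, (w r).length ≤ 2 * n) ∧
      (∀ r, ∀ m ∈ mvs (k i) (k i) (w r), m.2 ∈ L) ∧
      ∀ r r', r' ≠ r → ∀ b ∈ bss (k i) (k i) (w r), b ∉ bss (k i) (k i) (w r') := by
    intro i hi
    refine family (P := fun m => m.2 ∈ L) (fun Φ => ?_) (N₂ c)
    obtain ⟨w, h1, h2, h3⟩ := hL (Us G) n hn hexp' L hLinf (k i) hi Φ ∅ (by simp)
    exact ⟨w, h1, fun m hm => (h2 m hm).1, h3⟩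
  choose! v hv1 hv2 hv3 using stepB
  -- the constants
  have hcst : ∀ γ : Us G, γ ∈ L → ∃ g : G, cst G g = γ := fun γ h => h
  choose! c0 hc0 using hcst
  set V : Finset G := (Finset.univ.image fun i => c0 (k i)) ∪
    Finset.univ.biUnion fun i => Finset.univ.biUnion fun r =>
      ((mvs (k i) (k i) (v i r)).map fun m => c0 m.2).toFinset with hV
  have hV1 : ∀ i, c0 (k i) ∈ V := by
    intro i
    rw [hV, Finset.mem_union]
    exact Or.inl (Finset.mem_image_of_mem _ (Finset.mem_univ _))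
  have hV2 : ∀ i r, ∀ m ∈ mvs (k i) (k i) (v i r), c0 m.2 ∈ V := by
    intro i r m hm
    rw [hV, Finset.mem_union, Finset.mem_biUnion]
    refine Or.inr ⟨i, Finset.mem_univ _, ?_⟩
    rw [Finset.mem_biUnion]
    exact ⟨r, Finset.mem_univ _, List.mem_toFinset.2 (List.mem_map.2 ⟨m, hm, rfl⟩)⟩
  -- the bound
  obtain ⟨R, hR⟩ := exists_bound ψ hmul hinv
    (⋃ i : {i // k i ∉ L}, ⋃ r : Fin (N₂ c), {γ | ∃ m ∈ mvs (k i) (k i) (v i r), m.1 = γ})
    (by
      refine Set.finite_iUnion fun i => Set.finite_iUnion fun r => ?_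
      exact (List.finite_toSet ((mvs (k i) (k i) (v i r)).map Prod.fst)).subset (by
        rintro γ ⟨m, hm, rfl⟩
        exact List.mem_map_of_mem hm))
    (by
      intro γ hγ
      simp only [Set.mem_iUnion] at hγ
      obtain ⟨i, r, m, hm, rfl⟩ := hγ
      exact mvs_mem K (hkK i) _ _ (hkK i) (fun m hm => hLK (hv2 i i.2 r m hm)) m hm)
  refine ⟨c, V, R, fun R' => ?_⟩
  -- the evaluation
  have E1 : ∀ᶠ j in (hyperfilter ℕ : Filter ℕ), R' ≤ ψ (u j) := hsbig R'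
  have E2 : ∀ᶠ j in (hyperfilter ℕ : Filter ℕ), ∀ t ∈ T, R' ≤ ψ (u j * t) := by
    refine (eventually_all_finset T).2 fun t _ => ?_
    filter_upwards [hsbig (R' + ψ t⁻¹)] with j hj
    have := hmul (u j * t) t⁻¹
    rw [mul_inv_cancel_right] at this
    linarith
  have E3 : ∀ᶠ j in (hyperfilter ℕ : Filter ℕ), ∀ i, rp (k i) j ∈ V ∨
      ∃ w : Fin (N₂ c) → List (G × Bool), (∀ r, (w r).length ≤ 2 * n) ∧
        (∀ r, ∀ m ∈ mvs (rp (k i) j) (rp (k i) j) (w r), m.2 ∈ V ∧ ψ m.1 ≤ R) ∧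
        ∀ r r', r' ≠ r → ∀ b ∈ bss (rp (k i) j) (rp (k i) j) (w r),
          b ∉ bss (rp (k i) j) (rp (k i) j) (w r') := by
    refine eventually_all.2 fun i => ?_
    by_cases hi : k i ∈ L
    · filter_upwards [rp_cst (c0 (k i))] with j hj
      left
      rw [hc0 _ hi] at hj
      rw [hj]
      exact hV1 i
    · have hQ : ∀ m : Us G × Us G, (m.2 ∈ L ∧ c0 m.2 ∈ V ∧
          ∀ᶠ j in (hyperfilter ℕ : Filter ℕ), ψ (rp m.1 j) ≤ R) →
          ∀ᶠ j in (hyperfilter ℕ : Filter ℕ), rp m.2 j ∈ V ∧ ψ (rp m.1 j) ≤ R := by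
        rintro m ⟨h1, h2, h3⟩
        filter_upwards [h3, rp_cst (c0 m.2)] with j h4 h5
        rw [hc0 _ h1] at h5
        rw [h5]
        exact ⟨h2, h4⟩
      filter_upwards [eval (Q := fun _ m => m.2 ∈ V ∧ ψ m.1 ≤ R) (k i) (v i) (hv1 i hi) hQ
        (fun r m hm => ⟨hv2 i hi r m hm, hV2 i r m hm, hR _ (by
          simp only [Set.mem_iUnion]
          exact ⟨⟨i, hi⟩, r, m, hm, rfl⟩)⟩) (hv3 i hi)] with j hj
      exact Or.inr hj
  have hXrp : ∀ t, ∀ᶠ j in (hyperfilter ℕ : Filter ℕ), rp (X t) j = u j * t * (u j)⁻¹ := by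
    intro t
    filter_upwards [rp_mul (s * cst G t) s⁻¹, rp_mul s (cst G t), rp_inv s, rp_cst t, hsrp] with
      j h1 h2 h3 h4 h5
    rw [h1, h2, h3, h4, h5]
  have E4 : ∀ᶠ j in (hyperfilter ℕ : Filter ℕ), ∀ t ∈ T,
      (∃ i, rp (k i) j = u j * t * (u j)⁻¹) ∨ ∃ w : Fin N₁ → List (G × Bool),
        (∀ r, (w r).length ≤ 2 * n) ∧
        (∀ r, ∀ m ∈ mvs (u j * t * (u j)⁻¹) (u j * t * (u j)⁻¹) (w r),
          (∃ i, rp (k i) j = m.2) ∧ R' ≤ ψ (m.1 * u j)) ∧
        ∀ r r', r' ≠ r → ∀ b ∈ bss (u j * t * (u j)⁻¹) (u j * t * (u j)⁻¹) (w r),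
          b ∉ bss (u j * t * (u j)⁻¹) (u j * t * (u j)⁻¹) (w r') := by
    refine (eventually_all_finset T).2 fun t ht => ?_
    by_cases hXK : X t ∈ K
    · obtain ⟨i, hi⟩ := hkΛ _ (hΛ1 t ht hXK)
      filter_upwards [hXrp t] with j hj
      exact Or.inl ⟨i, by rw [hi, hj]⟩
    · have hQ : ∀ m : Us G × Us G, (m.2 ∈ Λ ∧ m.1 * s ∉ K) →
          ∀ᶠ j in (hyperfilter ℕ : Filter ℕ), (∃ i, rp (k i) j = rp m.2 j) ∧
            R' ≤ ψ (rp m.1 j * u j) := by
        rintro m ⟨h1, h2⟩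
        obtain ⟨i, hi⟩ := hkΛ _ h1
        filter_upwards [not_mem_bdd ψ hmul hinv h2 R', rp_mul m.1 s, hsrp] with j h3 h4 h5
        rw [h4, h5] at h3
        exact ⟨⟨i, by rw [hi]⟩, h3⟩
      filter_upwards [eval (Q := fun j m => (∃ i, rp (k i) j = m.2) ∧ R' ≤ ψ (m.1 * u j))
        (X t) (w t) (hw1 t ht hXK) hQ
        (fun r m hm => ⟨hΛ2 t ht hXK r m hm, (hw2 t ht hXK r m hm).2⟩) (hw3 t ht hXK),
        hXrp t] with j hj h2
      rw [h2] at hj
      exact Or.inr hj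
  obtain ⟨j, f1, f2, f3, f4⟩ := (E1.and (E2.and (E3.and E4))).exists
  exact ⟨u j, fun i => rp (k i) j, f1, f2, f3, f4⟩

end Pool.Agent.Lib.MP_90732c_al.Cx
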