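import Pool.Agent.Lib.MP_90732c_al.Cx.Two
import Pool.Agent.Lib.MP_90732c_al.Cx.H32.Law

/-! Groups of bounded exponent have cost one: the walks of the law, as lists. -/

set_option autoImplicit false

namespace Pool.Agent.Lib.MP_90732c_al.Cx

namespace LawL

variable {G : Type} [Group G]

open Classical in
/-- The list of the steps from `p i` on. -/
noncomputable def wl (x : G) (E : Set G) (p q : ℕ → G) : ℕ → ℕ → List (G × Bool)
  | _, 0 => []
  | i, r + 1 => (q i * (p i)⁻¹, decide (p (i + 1) = x * q i ∧ q i ∉ E)) :: wl x E p q (i + 1) r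

lemma wl_length (x : G) (E : Set G) (p q : ℕ → G) (r : ℕ) :
    ∀ i, (wl x E p q i r).length = r := by
  induction r with
  | zero => intro i; rfl
  | succ r ih => intro i; simp [wl, ih]

open Classical in
lemma key {K : Subgroup G} {x : G} {E V : Set G} {J : ℕ} {a : G} {p q : ℕ → G}
    (h : H32.IsWalk K x E V J a 1 p q) (r : ℕ) : ∀ i, i + r = J →
    (∀ m ∈ mvs x (p i) (wl x E p q i r), ∃ i', i ≤ i' ∧ i' ≤ J ∧ m = (p i', q i' * (p i')⁻¹)) ∧
      ∀ b ∈ bss x (p i) (wl x E p q i r), b ∉ E := by
  induction r with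
  | zero =>
    intro i hi
    constructor
    · intro m hm
      simp only [wl, mvs, List.mem_singleton] at hm
      refine ⟨i, le_rfl, by omega, ?_⟩
      have : i = J := by omega
      subst this
      rw [hm, h.right, one_mul]
    · intro b hb
      simp [wl, bss] at hb
  | succ r ih =>
    intro i hi
    obtain ⟨h1, h2⟩ := ih (i + 1) (by omega)
    have hst : stp x (p i) (q i * (p i)⁻¹, decide (p (i + 1) = x * q i ∧ q i ∉ E)) =
        p (i + 1) := by
      unfold stp
      by_cases hd : p (i + 1) = x * q i ∧ q i ∉ E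
      · rw [if_pos (by simpa using hd)]
        simp [hd.1]
      · rw [if_neg (by simpa using hd)]
        rcases h.edge i (by omega) with h3 | h3
        · exact absurd h3 hd
        · simp [h3.1]
    have hba : bas x (p i) (q i * (p i)⁻¹, decide (p (i + 1) = x * q i ∧ q i ∉ E)) ∉ E := by
      unfold bas
      by_cases hd : p (i + 1) = x * q i ∧ q i ∉ E
      · rw [if_pos (by simpa using hd)]
        simpa using hd.2
      · rw [if_neg (by simpa using hd)]
        rcases h.edge i (by omega) with h3 | h3
        · exact absurd h3 hd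
        · simpa [h3.1] using h3.2
    constructor
    · intro m hm
      simp only [wl, mvs, List.mem_cons] at hm
      rw [hst] at hm
      rcases hm with hm | hm
      · exact ⟨i, le_rfl, by omega, hm⟩
      · obtain ⟨i', h3, h4, h5⟩ := h1 m hm
        exact ⟨i', by omega, h4, h5⟩
    · intro b hb
      simp only [wl, bss, List.mem_cons] at hb
      rw [hst] at hb
      rcases hb with hb | hb
      · rw [hb]; exact hba
      · exact h2 b hb

end LawL

open LawL in
theorem lawL : LawStatement := by
  classical
  intro G _ n hn hexp K hK x hx Φ Ψ hΨ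
  obtain ⟨J, hJ0, hJn, hJ⟩ := H32.law hn hexp hK hx
  obtain ⟨p, q, h⟩ := hJ ((Φ : Set G) ∪ (Ψ : Set G)) (Φ.finite_toSet.union Ψ.finite_toSet)
  obtain ⟨h1, h2⟩ := key h J 0 (by omega)
  rw [h.left] at h1 h2
  refine ⟨wl x (↑Φ ∪ ↑Ψ) p q 0 J, ?_, ?_, ?_⟩
  · rw [wl_length]; omega
  · intro m hm
    obtain ⟨i, _, hiJ, rfl⟩ := h1 m hm
    refine ⟨h.turn i hiJ, ?_⟩
    intro f hf hk
    change p i * f⁻¹ ∈ K at hk
    obtain ⟨h3, h4⟩ := hΨ f hf
    rcases Nat.eq_zero_or_pos i with h0 | h0
    · subst h0
      rw [h.left] at hk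
      apply h4
      have := K.inv_mem hk
      rwa [mul_inv_rev, inv_inv] at this
    · rcases Nat.lt_or_ge i J with hi | hi
      · apply h.vert i h0 hi _ (K.inv_mem hk)
        rw [mul_inv_rev, inv_inv, inv_mul_cancel_right]
        exact Or.inr hf
      · have : i = J := by omega
        subst this
        have h5 := h.turn i le_rfl
        rw [h.right, one_mul] at h5
        apply h3
        have h6 := K.mul_mem (K.inv_mem hk) (K.inv_mem h5)
        simpa using h6
  · intro b hb hb'
    exact h2 b hb (Or.inl hb')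

end Pool.Agent.Lib.MP_90732c_al.Cx
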