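import Pool.Agent.Lib.MP_90732c_al.Cx.Two

/-! OPT: the infimum of the costs (helper5). -/

set_option autoImplicit false

open MeasureTheory
open scoped ENNReal Pointwise

namespace Pool.Agent.Lib.MP_90732c_al.Cx

open Pool.Agent.Lib.MP_90732c_al.Ab

namespace OPT

variable {G : Type} [Group G]

theorem costGe_mono {a b : ℝ≥0∞} (h : CostGe G a) (hab : b ≤ a) : CostGe G b :=
  fun X _ _ _ μ _ hmp hfree s A hA hgen => hab.trans (h X μ hmp hfree s A hA hgen)

/-- The generators on the space of labels. -/
theorem le_card [Countable G] (T : Finset G) (hT : Subgroup.closure (T : Set G) = ⊤) {c : ℝ≥0∞}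
    (h : CostGe G c) : c ≤ T.card := by
  classical
  let e := T.equivFin
  let s : ℕ → G := fun n => if hn : n < T.card then (e.symm ⟨n, hn⟩ : G) else 1
  let A : ℕ → Set (Lab G) := fun n => if n < T.card then Set.univ else ∅
  have hA : ∀ i, MeasurableSet (A i) := by
    intro i
    by_cases hi : i < T.card
    · simp only [A, if_pos hi]; exact MeasurableSet.univ
    · simp only [A, if_neg hi]; exact MeasurableSet.empty
  have hs : ∀ t ∈ T, ∃ i, (∀ x, x ∈ A i) ∧ s i = t := by
    intro t ht
    refine ⟨(e ⟨t, ht⟩ : ℕ), ?_, ?_⟩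
    · intro x
      simp only [A, if_pos (e ⟨t, ht⟩).2, Set.mem_univ]
    · simp only [s, dif_pos (e ⟨t, ht⟩).2, Fin.eta, Equiv.symm_apply_apply]
  have hgen : ∀ (h : G) (x : Lab G), Relation.ReflTransGen
      (fun y z : Lab G => ∃ i, (y ∈ A i ∧ z = s i • y) ∨ (z ∈ A i ∧ y = s i • z)) x (h • x) := by
    intro h
    have hh : h ∈ Subgroup.closure (T : Set G) := by rw [hT]; trivial
    induction hh using Subgroup.closure_induction with
    | mem t ht =>
      intro x
      obtain ⟨i, hi, hsi⟩ := hs t ht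
      exact Relation.ReflTransGen.single ⟨i, Or.inl ⟨hi _, by rw [hsi]⟩⟩
    | one => intro x; rw [one_smul]
    | mul a b _ _ ha hb =>
      intro x
      rw [mul_smul]
      exact (hb x).trans (ha (b • x))
    | inv a _ ha =>
      intro x
      have h1 := ha (a⁻¹ • x)
      rw [smul_inv_smul] at h1
      have hsymm : ∀ y z : Lab G, Relation.ReflTransGen
          (fun y z : Lab G => ∃ i, (y ∈ A i ∧ z = s i • y) ∨ (z ∈ A i ∧ y = s i • z)) y z →
          Relation.ReflTransGen
          (fun y z : Lab G => ∃ i, (y ∈ A i ∧ z = s i • y) ∨ (z ∈ A i ∧ y = s i • z)) z y := by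
        intro y z hyz
        induction hyz with
        | refl => exact Relation.ReflTransGen.refl
        | tail _ h2 ih =>
          obtain ⟨i, h3⟩ := h2
          exact Relation.ReflTransGen.head ⟨i, h3.symm⟩ ih
      exact hsymm _ _ h1
  have h1 := h (Lab G) (lam G) lam_measurePreserving lam_free s A hA
    (Filter.Eventually.of_forall fun x g => hgen g x)
  refine h1.trans (le_of_eq ?_)
  rw [tsum_eq_sum (s := Finset.range T.card)]
  · rw [Finset.sum_congr rfl (g := fun _ => (1 : ℝ≥0∞))]
    · simp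
    · intro i hi
      rw [Finset.mem_range] at hi
      simp only [A, if_pos hi, measure_univ]
  · intro i hi
    rw [Finset.mem_range] at hi
    simp only [A, if_neg hi, measure_empty]

/-- A path from `x` gives an element of `Gen`. -/
theorem exists_gen {X : Type} [MulAction G X] (s : ℕ → G) (A : ℕ → Set X) (x z : X)
    (h : Relation.ReflTransGen
      (fun y z : X => ∃ i, (y ∈ A i ∧ z = s i • y) ∨ (z ∈ A i ∧ y = s i • z)) x z) :
    ∃ g : G, Gen s A x g ∧ g • x = z := by
  induction h with
  | refl => exact ⟨1, Gen.one x, one_smul _ _⟩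
  | tail _ h2 ih =>
    obtain ⟨g, hg, rfl⟩ := ih
    obtain ⟨i, ⟨h3, h4⟩ | ⟨h3, h4⟩⟩ := h2
    · exact ⟨s i * g, Gen.fwd x g i hg h3, by rw [mul_smul, h4]⟩
    · have h5 := eq_inv_smul_iff.2 h4.symm
      refine ⟨(s i)⁻¹ * g, Gen.bwd x g i hg ?_, ?_⟩
      · rw [← h5]; exact h3
      · rw [mul_smul, ← h5]

end OPT

open OPT in
/-- OPT. -/
theorem opt : OptStatement := by
  intro G _ _ hfg ε hε hc
  obtain ⟨T, hT⟩ := hfg.out
  set R : Set ℝ := {r | CostGe G (ENNReal.ofReal r)} with hR
  have hbdd : BddAbove R := by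
    refine ⟨T.card, ?_⟩
    intro r hr
    have h1 := le_card T hT hr
    have h2 : ENNReal.ofReal r ≤ ENNReal.ofReal (T.card : ℝ) := by
      rw [ENNReal.ofReal_natCast]; exact h1
    by_contra h3
    push Not at h3
    have h4 : (0 : ℝ) < r := lt_of_le_of_lt (Nat.cast_nonneg _) h3
    exact absurd h2 (not_le.2 ((ENNReal.ofReal_lt_ofReal_iff h4).2 h3))
  have hmem : 1 + (min ε 1).toReal ∈ R := by
    refine costGe_mono hc ?_
    rw [ENNReal.ofReal_add zero_le_one ENNReal.toReal_nonneg, ENNReal.ofReal_one,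
      ENNReal.ofReal_toReal (ne_top_of_le_ne_top ENNReal.one_ne_top (min_le_right _ _))]
    gcongr
    exact min_le_left _ _
  have hpos : 0 < (min ε 1).toReal := by
    refine ENNReal.toReal_pos ?_ (ne_top_of_le_ne_top ENNReal.one_ne_top (min_le_right _ _))
    exact (lt_min hε zero_lt_one).ne'
  refine ⟨sSup R, ?_, ?_, ?_⟩
  · have := le_csSup hbdd hmem
    linarith
  · intro X _ _ _ μ _ hmp hfree s A hA hgen
    by_contra hlt
    push Not at hlt
    have htop : ∑' i, μ (A i) ≠ ⊤ := ne_top_of_lt hlt
    have h1 : (∑' i, μ (A i)).toReal < sSup R := by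
      by_contra h2
      push Not at h2
      have h3 := ENNReal.ofReal_le_ofReal h2
      rw [ENNReal.ofReal_toReal htop] at h3
      exact absurd hlt (not_lt.2 h3)
    obtain ⟨r, hr, hr2⟩ := exists_lt_of_lt_csSup ⟨_, hmem⟩ h1
    have h3 := hr X μ hmp hfree s A hA hgen
    have h4 : r ≤ (∑' i, μ (A i)).toReal := (ENNReal.ofReal_le_iff_le_toReal htop).1 h3
    linarith
  · intro δ hδ
    have hnot : ¬ CostGe G (ENNReal.ofReal (sSup R + δ)) := by
      intro h
      have := le_csSup hbdd (show sSup R + δ ∈ R from h)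
      linarith
    by_contra hcon
    apply hnot
    intro X _ _ _ μ _ hmp hfree s A hA hgen
    by_contra hlt
    push Not at hlt
    refine hcon ⟨X, inferInstance, inferInstance, inferInstance, μ, inferInstance, Gen s A, hmp,
      ⟨ℕ, inferInstance, s, A, hA, fun _ _ => Iff.rfl, hlt.le⟩, ?_⟩
    have hfree' : ∀ᵐ x ∂μ, ∀ g : G, g ≠ 1 → g • x ≠ x := by
      rw [ae_all_iff]
      intro g
      by_cases hg : g = 1
      · exact Filter.Eventually.of_forall fun x h => absurd hg h
      · have h1 : ∀ᵐ x ∂μ, g • x ≠ x := by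
          rw [ae_iff]
          have h2 : {x : X | ¬ g • x ≠ x} = {x : X | g • x = x} := by
            ext x
            simp
          rw [h2]
          exact hfree g hg
        filter_upwards [h1] with x hx _
        exact hx
    filter_upwards [hgen, hfree'] with x hx hx' h
    obtain ⟨g, hg, hgx⟩ := exists_gen s A x (h • x) (hx h)
    have h3 : g = h := by
      by_contra hne
      have h4 : h⁻¹ * g ≠ 1 := by
        intro h5
        exact hne (inv_mul_eq_one.1 h5).symm
      apply hx' _ h4
      rw [mul_smul, hgx, inv_smul_smul]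
    rw [← h3]
    exact hg

end Pool.Agent.Lib.MP_90732c_al.Cx
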