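import Pool.Agent.Lib.MP_90732c_al.Cx.Two

/-! Part two: the assembly. -/

set_option autoImplicit false

open MeasureTheory
open scoped ENNReal Pointwise

namespace Pool.Agent.Lib.MP_90732c_al.Cx.P2

open Pool.Agent.Lib.MP_90732c_al.Ab Pool.Agent.Lib.MP_90732c_al.Cx

variable {G : Type} [Group G]

lemma cst_mono {Y : Type} [MulAction G Y] [MeasurableSpace Y] {ν : Measure Y}
    {S : Y → G → Prop} {C C' : ℝ≥0∞} (h : Cst ν S C) (hC : C ≤ C') : Cst ν S C' := by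
  obtain ⟨ι, hι, s, A, h1, h2, h3⟩ := h
  exact ⟨ι, hι, s, A, h1, h2, h3.trans hC⟩

lemma st_weaken {f₁ f₂ : G → ℝ≥0∞} {a C C' : ℝ≥0∞} {s : G} {I J I' J' : List (G × ℝ≥0∞)}
    (h : St f₁ f₂ a C s I J) (hC : C ≤ C')
    (hI : ∀ i' ∈ I', ∃ i ∈ I, i.1 = i'.1 ∧ i.2 ≤ i'.2)
    (hJ : ∀ j' ∈ J', ∃ j ∈ J, j.1 = j'.1 ∧ j.2 ≤ j'.2) : St f₁ f₂ a C' s I' J' := by
  obtain ⟨Y, i1, i2, i3, ν, i4, A, S, h1, h2, h3, h4, h5, h6, h7, h8⟩ := h
  refine ⟨Y, i1, i2, i3, ν, i4, A, S, h1, h2, cst_mono h3 hC, h4, h5, h6, ?_, ?_⟩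
  · intro i' hi'
    obtain ⟨i, hi, e1, e2⟩ := hI i' hi'
    have := h7 i hi
    rw [e1] at this
    exact this.trans e2
  · intro j' hj'
    obtain ⟨j, hj, e1, e2⟩ := hJ j' hj'
    have := h8 j hj
    rw [e1] at this
    exact this.trans e2

lemma loopI [Countable G] (hA : AddIStatement) {f₁ f₂ : G → ℝ≥0∞} {a C : ℝ≥0∞} {s : G}
    {I₀ : List (G × ℝ≥0∞)} (h₀ : St f₁ f₂ a C s I₀ []) {m₀ : ℕ} (k : Fin m₀ → G)
    (V : Finset G) {δ₁ δ₂ b : ℝ≥0∞} (hV : ∀ v ∈ V, (v, δ₁) ∈ I₀) {ε : ℝ} (hε0 : 0 ≤ ε)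
    (hε1 : ε ≤ 1) (L N : ℕ) (hδ : δ₁ ≤ δ₂)
    (hδ2 : 2 * ((L + 1) * (b + δ₁)) + ENNReal.ofReal ((1 - ε ^ L) ^ (N / 2)) ≤ δ₂)
    (hk : ∀ i, k i ∈ V ∨ ∃ w : Fin N → List (G × Bool), (∀ r, (w r).length ≤ L) ∧
      (∀ r, ∀ m ∈ mvs (k i) (k i) (w r), m.2 ∈ V ∧ f₁ m.1⁻¹ ≤ b) ∧
      ∀ r r', r' ≠ r → ∀ b ∈ bss (k i) (k i) (w r), b ∉ bss (k i) (k i) (w r'))
    (F : Finset (Fin m₀)) : ∃ I : List (G × ℝ≥0∞), (∀ i ∈ I₀, i ∈ I) ∧
      (∀ i ∈ F, (k i, δ₂) ∈ I) ∧ St f₁ f₂ a (C + F.card * ENNReal.ofReal ε) s I [] := by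
  classical
  induction F using Finset.induction_on with
  | empty => exact ⟨I₀, fun _ h => h, by simp, by simpa using h₀⟩
  | insert i F hi ih =>
    obtain ⟨I, hI1, hI2, hI3⟩ := ih
    have hcost : C + (F.card : ℝ≥0∞) * ENNReal.ofReal ε + ENNReal.ofReal ε =
        C + ((insert i F).card : ℝ≥0∞) * ENNReal.ofReal ε := by
      rw [Finset.card_insert_of_notMem hi]
      push_cast
      ring
    refine ⟨(k i, δ₂) :: I, fun j hj => List.mem_cons_of_mem _ (hI1 j hj), ?_, ?_⟩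
    · intro j hj
      rcases Finset.mem_insert.1 hj with rfl | hj
      · exact List.mem_cons_self
      · exact List.mem_cons_of_mem _ (hI2 j hj)
    · rcases hk i with hki | ⟨w, hw1, hw2, hw3⟩
      · refine st_weaken hI3 ?_ ?_ (by simp)
        · rw [← hcost]; exact le_self_add
        · intro i' hi'
          rcases List.mem_cons.1 hi' with rfl | hi'
          · exact ⟨_, hI1 _ (hV _ hki), rfl, hδ⟩
          · exact ⟨i', hi', rfl, le_rfl⟩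
      · have h1 := hA G f₁ f₂ a _ s I [] hI3 (k i) ε hε0 hε1 L N b δ₁ w hw1
          (fun r m hm => ⟨(hw2 r m hm).2, hI1 _ (hV _ (hw2 r m hm).1)⟩) hw3
        refine st_weaken h1 hcost.le ?_ (by simp)
        intro i' hi'
        rcases List.mem_cons.1 hi' with rfl | hi'
        · exact ⟨_, List.mem_cons_self, rfl, hδ2⟩
        · exact ⟨i', List.mem_cons_of_mem _ hi', rfl, le_rfl⟩

lemma loopJ [Countable G] (hA : AddJStatement) {f₁ f₂ : G → ℝ≥0∞} {a C : ℝ≥0∞} {s : G}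
    {I : List (G × ℝ≥0∞)} (h₀ : St f₁ f₂ a C s I []) (P : G → Prop)
    {δ₂ δ₃ b : ℝ≥0∞} (hP : ∀ g, P g → (g, δ₂) ∈ I) {ε : ℝ} (hε0 : 0 ≤ ε)
    (hε1 : ε ≤ 1) (L N : ℕ)
    (hδ : 2 * ((L + 1) * (b + δ₂)) + ENNReal.ofReal ((1 - ε ^ L) ^ (N / 2)) ≤ δ₃)
    (F : Finset G)
    (hk : ∀ t ∈ F, P (s * t * s⁻¹) ∨ ∃ w : Fin N → List (G × Bool),
      (∀ r, (w r).length ≤ L) ∧
      (∀ r, ∀ m ∈ mvs (s * t * s⁻¹) (s * t * s⁻¹) (w r), P m.2 ∧ f₂ (m.1 * s) ≤ b) ∧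
      ∀ r r', r' ≠ r → ∀ b ∈ bss (s * t * s⁻¹) (s * t * s⁻¹) (w r),
        b ∉ bss (s * t * s⁻¹) (s * t * s⁻¹) (w r')) : ∃ J : List (G × ℝ≥0∞),
      (∀ t ∈ F, P (s * t * s⁻¹) ∨ (s * t * s⁻¹, δ₃) ∈ J) ∧
        St f₁ f₂ a (C + F.card * ENNReal.ofReal ε) s I J := by
  classical
  induction F using Finset.induction_on with
  | empty => exact ⟨[], by simp, by simpa using h₀⟩
  | insert t F ht ih =>
    obtain ⟨J, hJ1, hJ2⟩ := ih fun t' ht' => hk t' (Finset.mem_insert_of_mem ht')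
    have hcost : C + (F.card : ℝ≥0∞) * ENNReal.ofReal ε + ENNReal.ofReal ε =
        C + ((insert t F).card : ℝ≥0∞) * ENNReal.ofReal ε := by
      rw [Finset.card_insert_of_notMem ht]
      push_cast
      ring
    rcases hk t (Finset.mem_insert_self _ _) with hki | ⟨w, hw1, hw2, hw3⟩
    · refine ⟨J, ?_, st_weaken hJ2 ?_ (fun i hi => ⟨i, hi, rfl, le_rfl⟩)
        (fun i hi => ⟨i, hi, rfl, le_rfl⟩)⟩
      · intro t' ht'
        rcases Finset.mem_insert.1 ht' with rfl | ht'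
        · exact Or.inl hki
        · exact hJ1 t' ht'
      · rw [← hcost]; exact le_self_add
    · have h1 := hA G f₁ f₂ a _ s I J hJ2 (s * t * s⁻¹) ε hε0 hε1 L N b δ₂ w hw1
          (fun r m hm => ⟨(hw2 r m hm).2, hP _ (hw2 r m hm).1⟩) hw3
      refine ⟨(s * t * s⁻¹, δ₃) :: J, ?_, st_weaken h1 hcost.le
        (fun i hi => ⟨i, hi, rfl, le_rfl⟩) ?_⟩
      · intro t' ht'
        rcases Finset.mem_insert.1 ht' with rfl | ht'
        · exact Or.inr List.mem_cons_self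
        · rcases hJ1 t' ht' with h | h
          · exact Or.inl h
          · exact Or.inr (List.mem_cons_of_mem _ h)
      · intro i' hi'
        rcases List.mem_cons.1 hi' with rfl | hi'
        · exact ⟨_, List.mem_cons_self, rfl, hδ⟩
        · exact ⟨i', List.mem_cons_of_mem _ hi', rfl, le_rfl⟩

/-- For `0 < q ≤ 1` the powers of `1 - q` are small. -/
lemma exists_N {q : ℝ} (hq0 : 0 < q) (hq1 : q ≤ 1) {σ : ℝ} (hσ : 0 < σ) :
    ∃ N : ℕ, (1 - q) ^ (N / 2) ≤ σ := by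
  obtain ⟨N, hN⟩ := exists_pow_lt_of_lt_one hσ (show 1 - q < 1 by linarith)
  refine ⟨2 * N, ?_⟩
  rw [Nat.mul_div_cancel_left _ (by norm_num)]
  exact hN.le


lemma conv (L : ℕ) {a b e : ℝ} (ha : 0 ≤ a) (hb : 0 ≤ b) (he : 0 ≤ e) :
    2 * (((L : ℝ≥0∞) + 1) * (ENNReal.ofReal a + ENNReal.ofReal b)) + ENNReal.ofReal e =
      ENNReal.ofReal (2 * ((L + 1) * (a + b)) + e) := by
  have h1 : ((L : ℝ≥0∞) + 1) = ENNReal.ofReal ((L : ℝ) + 1) := by
    rw [ENNReal.ofReal_add (by positivity) (by norm_num), ENNReal.ofReal_natCast,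
      ENNReal.ofReal_one]
  have h2 : (2 : ℝ≥0∞) = ENNReal.ofReal 2 := by norm_num
  rw [h1, h2, ← ENNReal.ofReal_add ha hb, ← ENNReal.ofReal_mul (by positivity),
    ← ENNReal.ofReal_mul (by norm_num), ← ENNReal.ofReal_add (by positivity) he]

lemma conv' (L : ℕ) {a : ℝ} (ha : 0 ≤ a) :
    (L : ℝ≥0∞) * ENNReal.ofReal a = ENNReal.ofReal (L * a) := by
  rw [ENNReal.ofReal_mul (by positivity), ENNReal.ofReal_natCast]

/-- The starting state. -/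
lemma start [Countable G] (hBase : BaseStatement) {ψ : G → ℝ} (hψi : ∀ g, ψ g⁻¹ = ψ g)
    (hψ0 : ∀ g, 0 ≤ ψ g) {c σ : ℝ}
    (hc : 0 ≤ c) (hσ : 0 < σ) {X : Type} [MeasurableSpace X] [StandardBorelSpace X]
    [MulAction G X] {μ : Measure X} [IsProbabilityMeasure μ]
    (hμ : ∀ g : G, MeasurePreserving (fun x : X => g • x) μ μ) {S₀ : X → G → Prop}
    (hS₀ : Cst μ S₀ (ENNReal.ofReal c)) (hfull : ∀ᵐ x ∂μ, ∀ g : G, S₀ x g) (V : Finset G) :
    ∃ Q : Finset G, ∀ (η l : ℝ), 0 < η → η < 1 → 0 < l → l * (∑ q ∈ Q, ψ q) ≤ σ / 2 →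
      ∀ (s : G) {Ω : Type} [MeasurableSpace Ω] [StandardBorelSpace Ω] [MulAction G Ω]
        {P : Measure Ω} [IsProbabilityMeasure P] {A : Set Ω},
        (∀ g : G, MeasurePreserving (fun ω : Ω => g • ω) P P) → MeasurableSet A →
        P Aᶜ = ENNReal.ofReal η →
        (∀ g : G, P {ω | ω ∉ A ∧ g • ω ∈ A} ≤ ENNReal.ofReal (l * ψ g)) →
        (∀ g : G, P {ω | ω ∉ A ∧ g • ω ∉ A} ≤
          ENNReal.ofReal (η ^ 2 + Real.exp (-(l * ψ g)))) →
        ∃ I : List (G × ℝ≥0∞), (∀ v ∈ V, (v, ENNReal.ofReal σ) ∈ I) ∧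
          St (fun g => ENNReal.ofReal (l * ψ g))
            (fun g => ENNReal.ofReal (η ^ 2 + Real.exp (-(l * ψ g)))) (ENNReal.ofReal η)
            (ENNReal.ofReal (c * (1 - η))) s I [] := by
  classical
  obtain ⟨Q, hQ⟩ := hBase G X μ hμ S₀ _ hS₀ hfull V (ENNReal.ofReal (σ / 2))
    (ENNReal.ofReal_pos.2 (by positivity))
  refine ⟨Q, fun η l hη0 hη1 hl0 hl s Ω _ _ _ P _ A hP hA hPA h1 h2 => ?_⟩
  obtain ⟨S, hS1, hS2⟩ := hQ Ω P hP A hA
  have hPA' : P A = ENNReal.ofReal (1 - η) := by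
    have h3 : P A = 1 - P Aᶜ := by
      have := prob_compl_eq_one_sub (μ := P) hA.compl
      rwa [compl_compl] at this
    rw [h3, hPA, ENNReal.ofReal_sub _ hη0.le, ENNReal.ofReal_one]
  have hQs : ∑ q ∈ Q, P {ω | ω ∈ A ∧ q • ω ∉ A} ≤ ENNReal.ofReal (σ / 2) := by
    calc ∑ q ∈ Q, P {ω | ω ∈ A ∧ q • ω ∉ A} ≤ ∑ q ∈ Q, ENNReal.ofReal (l * ψ q) := by
          refine Finset.sum_le_sum fun q _ => ?_
          have h4 : P {ω | ω ∈ A ∧ q • ω ∉ A} = P {ω | ω ∉ A ∧ q⁻¹ • ω ∈ A} := by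
            have h5 := (hP q).measure_preimage (s := {ω | ω ∉ A ∧ q⁻¹ • ω ∈ A})
              ((hA.compl.inter ((hP q⁻¹).measurable hA)).nullMeasurableSet)
            rw [← h5]
            congr 1
            ext ω
            simp only [Set.mem_preimage, Set.mem_ofPred_eq, inv_smul_smul]
            tauto
          rw [h4]
          exact (h1 q⁻¹).trans (by rw [hψi])
      _ = ENNReal.ofReal (∑ q ∈ Q, l * ψ q) := by
          rw [ENNReal.ofReal_sum_of_nonneg fun q _ => mul_nonneg hl0.le (hψ0 q)]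
      _ ≤ _ := ENNReal.ofReal_le_ofReal (by rw [← Finset.mul_sum]; exact hl)
  refine ⟨V.toList.map fun v => (v, ENNReal.ofReal σ), ?_, ?_⟩
  · intro v hv
    exact List.mem_map.2 ⟨v, Finset.mem_toList.2 hv, rfl⟩
  · have hprod : ∀ B : Set Ω, (μ.prod P) {z | z.2 ∈ B} = P B := by
      intro B
      have h6 : {z : X × Ω | z.2 ∈ B} = Set.univ ×ˢ B := by ext z; simp
      rw [h6, Measure.prod_prod, measure_univ, one_mul]
    refine ⟨X × Ω, inferInstance, inferInstance, inferInstance, μ.prod P, inferInstance,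
      {z | z.2 ∈ A}, S, fun g => (hμ g).prod (hP g), measurable_snd hA, ?_, ?_, ?_, ?_, ?_, ?_⟩
    · refine cst_mono hS1 ?_
      rw [hPA', ← ENNReal.ofReal_mul hc]
    · have := hprod Aᶜ
      rw [← hPA, ← this]
      exact le_of_eq (by congr 1)
    · intro g
      refine le_trans (le_of_eq ?_) (h1 g)
      exact hprod {ω | ω ∉ A ∧ g • ω ∈ A}
    · intro g
      refine le_trans (le_of_eq ?_) (h2 g)
      exact hprod {ω | ω ∉ A ∧ g • ω ∉ A}
    · intro i hi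
      obtain ⟨v, hv, rfl⟩ := List.mem_map.1 hi
      refine (hS2 v (Finset.mem_toList.1 hv)).trans ?_
      calc ENNReal.ofReal (σ / 2) + ∑ q ∈ Q, P {ω | ω ∈ A ∧ q • ω ∉ A} ≤
          ENNReal.ofReal (σ / 2) + ENNReal.ofReal (σ / 2) := by gcongr
        _ = ENNReal.ofReal σ := by
          rw [← ENNReal.ofReal_add (by positivity) (by positivity)]
          congr 1; ring
    · simp

theorem part2 (hOpt : OptStatement) (hBase : BaseStatement) (hAtt : Att2Statement)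
    (hI : AddIStatement) (hJ : AddJStatement) (hG : GermStatement) : Part2Statement := by
  intro G _ _ _ hfg n hn hlaw hW ε hε hc
  classical
  obtain ⟨T, hT⟩ := Group.fg_def.1 hfg
  obtain ⟨ψ, hψ0, hψm, hψi, hψu, hWalls⟩ := hW
  obtain ⟨c, hc1, hcge, hopt⟩ := hOpt G hfg ε hε hc
  obtain ⟨κ, hκ⟩ : ∃ κ, κ = c - 1 := ⟨_, rfl⟩
  have hκ0 : 0 < κ := by linarith
  obtain ⟨d, hd⟩ : ∃ d : ℝ, d = (T.card : ℝ) := ⟨_, rfl⟩
  have hd0 : 0 ≤ d := by rw [hd]; positivity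
  have hn0 : (0 : ℝ) ≤ n := by positivity
  -- the density of the complement
  obtain ⟨η, hη0, hη1, hη2⟩ : ∃ η : ℝ, 0 < η ∧ η < 1 ∧ d * (4 * n + 4) * η ≤ κ / 4 := by
    refine ⟨min (1 / 2) (κ / (16 * (n + 1) * (d + 1))), by positivity,
      lt_of_le_of_lt (min_le_left _ _) (by norm_num), ?_⟩
    have h1 : min (1 / 2) (κ / (16 * (n + 1) * (d + 1))) ≤ κ / (16 * (n + 1) * (d + 1)) :=
      min_le_right _ _
    calc d * (4 * n + 4) * min (1 / 2) (κ / (16 * (n + 1) * (d + 1)))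
        ≤ d * (4 * n + 4) * (κ / (16 * (n + 1) * (d + 1))) := by gcongr
      _ = κ / 4 * (d / (d + 1)) := by field_simp; ring
      _ ≤ κ / 4 * 1 := by
          gcongr
          rw [div_le_one (by positivity)]
          linarith
      _ = κ / 4 := mul_one _
  -- the error
  obtain ⟨σ, hσ0, hσ1, hσ⟩ : ∃ σ : ℝ, 0 < σ ∧ σ ≤ 1 ∧ σ * (3 + d * (8 * n + 9)) < η * κ / 2 := by
    refine ⟨min 1 (η * κ / (2 * (d * (8 * n + 9) + 4))), by positivity, min_le_left _ _, ?_⟩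
    have h1 : min 1 (η * κ / (2 * (d * (8 * n + 9) + 4))) ≤
      η * κ / (2 * (d * (8 * n + 9) + 4)) := min_le_right _ _
    calc min 1 (η * κ / (2 * (d * (8 * n + 9) + 4))) * (3 + d * (8 * n + 9))
        ≤ η * κ / (2 * (d * (8 * n + 9) + 4)) * (3 + d * (8 * n + 9)) := by gcongr
      _ = η * κ / 2 * ((3 + d * (8 * n + 9)) / (d * (8 * n + 9) + 4)) := by
          field_simp
      _ < η * κ / 2 * 1 := by
          gcongr
          rw [div_lt_one (by positivity)]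
          linarith
      _ = _ := mul_one _
  obtain ⟨τ, hτ⟩ : ∃ τ : ℝ, τ = σ / (8 * (2 * n + 1)) := ⟨_, rfl⟩
  have hτ0 : 0 < τ := by rw [hτ]; positivity
  have hτ1 : 2 * (((2 * n : ℕ) + 1 : ℝ) * (τ + τ)) = σ / 2 := by
    rw [hτ]; push_cast; field_simp; ring
  have hτσ : τ ≤ σ := by
    rw [hτ, div_le_iff₀ (by positivity)]
    nlinarith
  -- densities of the sprinkled edges
  obtain ⟨εx, hεx0, hεx1, hεx⟩ : ∃ e : ℝ, 0 < e ∧ e ≤ 1 ∧ d * e ≤ σ := by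
    refine ⟨min 1 (σ / (d + 1)), by positivity, min_le_left _ _, ?_⟩
    calc d * min 1 (σ / (d + 1)) ≤ d * (σ / (d + 1)) := by gcongr; exact min_le_right _ _
      _ = σ * (d / (d + 1)) := by field_simp
      _ ≤ σ * 1 := by
          gcongr
          rw [div_le_one (by positivity)]
          linarith
      _ = σ := mul_one _
  have hεk : ∀ m : ℕ, ∃ e : ℝ, 0 < e ∧ e ≤ 1 ∧ m * e ≤ σ := by
    intro m
    refine ⟨min 1 (σ / (m + 1)), by positivity, min_le_left _ _, ?_⟩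
    calc m * min 1 (σ / (m + 1)) ≤ m * (σ / (m + 1)) := by gcongr; exact min_le_right _ _
      _ = σ * (m / (m + 1)) := by field_simp
      _ ≤ σ * 1 := by
          gcongr
          rw [div_le_one (by positivity)]
          linarith
      _ = σ := mul_one _
  choose εk hεk0 hεk1 hεk2 using hεk
  obtain ⟨N₁, hN₁⟩ := exists_N (q := εx ^ (2 * n)) (by positivity)
    (pow_le_one₀ hεx0.le hεx1) hσ0
  have hN₂ : ∀ m : ℕ, ∃ N : ℕ, (1 - εk m ^ (2 * n)) ^ (N / 2) ≤ σ / 2 := fun m =>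
    exists_N (pow_pos (hεk0 m) _) (pow_le_one₀ (hεk0 m).le (hεk1 m)) (by positivity)
  choose N₂ hN₂ using hN₂
  -- the walks
  obtain ⟨m₀, V, R, hgerm⟩ := hG G n hn hlaw ψ hψ0 hψm hψi hψu T N₁ N₂
  -- the relation of small cost
  obtain ⟨X, _, _, _, μ, _, S₀, hμ, hS₀, hfull⟩ := hopt σ hσ0
  obtain ⟨Q, hQ⟩ := start hBase hψi hψ0 (c := c + σ) (by linarith) hτ0 hμ hS₀ hfull (V ∪ T)
  -- the scale
  obtain ⟨B, hB0, hBQ, hBR, hBT⟩ : ∃ B : ℝ, 0 < B ∧ (∑ q ∈ Q, ψ q) ≤ B ∧ R ≤ B ∧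
      ∀ t ∈ T, ψ t ≤ B := by
    have h1 : 0 ≤ ∑ q ∈ Q, ψ q := Finset.sum_nonneg fun q _ => hψ0 q
    have h2 : 0 ≤ ∑ q ∈ T, ψ q := Finset.sum_nonneg fun q _ => hψ0 q
    refine ⟨(∑ q ∈ Q, ψ q) + |R| + (∑ q ∈ T, ψ q) + 1, by positivity, ?_, ?_, ?_⟩
    · have := abs_nonneg R; linarith
    · have := le_abs_self R; linarith
    · intro t ht
      have := Finset.single_le_sum (fun q _ => hψ0 q) ht
      have := abs_nonneg R; linarith
  obtain ⟨l, hl0, hl1, hlB⟩ : ∃ l : ℝ, 0 < l ∧ l ≤ 1 ∧ l * B ≤ τ / 2 := by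
    refine ⟨min 1 (τ / 2 / B), by positivity, min_le_left _ _, ?_⟩
    calc min 1 (τ / 2 / B) * B ≤ τ / 2 / B * B := by gcongr; exact min_le_right _ _
      _ = τ / 2 := by field_simp
  have hlQ : l * (∑ q ∈ Q, ψ q) ≤ τ / 2 := (by gcongr : l * (∑ q ∈ Q, ψ q) ≤ l * B).trans hlB
  have hlR : l * R ≤ τ := by
    have h1 : l * R ≤ l * B := by gcongr
    linarith
  have hlT : ∀ t ∈ T, l * ψ t ≤ σ := by
    intro t ht
    have h1 : l * ψ t ≤ l * B := by gcongr; exact hBT t ht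
    linarith
  obtain ⟨R', hR'⟩ : ∃ R' : ℝ, ∀ g, R' ≤ ψ g → Real.exp (-(l * ψ g)) ≤ σ := by
    refine ⟨-Real.log σ / l, fun g hg => ?_⟩
    rw [div_le_iff₀ hl0] at hg
    calc Real.exp (-(l * ψ g)) ≤ Real.exp (Real.log σ) := by
          apply Real.exp_le_exp.2
          linarith
      _ = σ := Real.exp_log hσ0
  obtain ⟨s, k, hs, hst, hk, hx⟩ := hgerm R'
  obtain ⟨Ω, _, _, _, P, _, A, hP, hA, hPA, h1, h2⟩ := hWalls η l hη0 hη1 hl0 hl1
  obtain ⟨I₀, hI₀, hst₀⟩ := hQ η l hη0 hη1 hl0 hlQ s hP hA hPA h1 h2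
  -- the elements of small length
  obtain ⟨I, hI1, hI2, hst₁⟩ := loopI hI hst₀ k (V ∪ T) (δ₁ := ENNReal.ofReal τ)
    (δ₂ := ENNReal.ofReal σ) (b := ENNReal.ofReal τ) hI₀ (hεk0 m₀).le (hεk1 m₀) (2 * n) (N₂ m₀)
    (ENNReal.ofReal_le_ofReal hτσ) (by
      rw [conv (2 * n) hτ0.le hτ0.le (pow_nonneg (by
        have := pow_le_one₀ (n := 2 * n) (hεk0 m₀).le (hεk1 m₀)
        linarith) _), hτ1]
      apply ENNReal.ofReal_le_ofReal
      have := hN₂ m₀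
      linarith) (by
      intro i
      rcases hk i with h | ⟨w, hw1, hw2, hw3⟩
      · exact Or.inl (Finset.mem_union_left _ h)
      · refine Or.inr ⟨w, hw1, fun r m hm => ⟨Finset.mem_union_left _ (hw2 r m hm).1, ?_⟩, hw3⟩
        apply ENNReal.ofReal_le_ofReal
        rw [hψi]
        refine le_trans ?_ hlR
        gcongr
        exact (hw2 r m hm).2) Finset.univ
  -- the conjugates of the generators
  obtain ⟨δ₃, hδ₃⟩ : ∃ x : ℝ, x = 2 * (((2 * n : ℕ) + 1 : ℝ) * ((η ^ 2 + σ) + σ)) + σ := ⟨_, rfl⟩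
  obtain ⟨J, hJ1, hst₂⟩ := loopJ hJ hst₁ (fun g => ∃ i, k i = g) (δ₂ := ENNReal.ofReal σ)
    (δ₃ := ENNReal.ofReal δ₃) (b := ENNReal.ofReal (η ^ 2 + σ)) (by
      rintro g ⟨i, rfl⟩
      exact hI2 i (Finset.mem_univ _)) hεx0.le hεx1 (2 * n) N₁ (by
      rw [conv (2 * n) (by positivity) hσ0.le (pow_nonneg (by
        have := pow_le_one₀ (n := 2 * n) hεx0.le hεx1
        linarith) _)]
      apply ENNReal.ofReal_le_ofReal
      rw [hδ₃]
      linarith) T (by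
      intro t ht
      rcases hx t ht with h | ⟨w, hw1, hw2, hw3⟩
      · exact Or.inl h
      · refine Or.inr ⟨w, hw1, fun r m hm => ⟨(hw2 r m hm).1, ?_⟩, hw3⟩
        apply ENNReal.ofReal_le_ofReal
        have := hR' _ (hw2 r m hm).2
        linarith)
  -- the end
  obtain ⟨Y, _, _, _, ν, _, A', S, hν, hA', hS, e1, e2, e3, e4, e5⟩ := hst₂
  have key := hAtt G _ hcge Y ν hν S _ hS A' hA' s T hT
  obtain ⟨E, hE⟩ : ∃ E : ℝ, E = η ^ 2 * (4 * n + 4) + σ * (8 * n + 9) := ⟨_, rfl⟩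
  have hE0 : 0 ≤ E := by rw [hE]; positivity
  have hterm : ∀ t ∈ T, (ν {y | y ∈ A' ∧ ¬ S y t} + ν {y | y ∉ A' ∧ t • y ∈ A'} +
        ν {y | y ∉ A' ∧ s • y ∉ A'} + ν {y | y ∉ A' ∧ (s * t) • y ∉ A'} +
        ν {y | y ∉ A' ∧ s • y ∈ A' ∧ ¬ S (s • y) (s * t * s⁻¹)}) ≤ ENNReal.ofReal E := by
    intro t ht
    have b1 : ν {y | y ∈ A' ∧ ¬ S y t} ≤ ENNReal.ofReal σ :=
      (e4 _ (hI1 _ (hI₀ t (Finset.mem_union_right _ ht)))).trans
        (ENNReal.ofReal_le_ofReal hτσ)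
    have b2 : ν {y | y ∉ A' ∧ t • y ∈ A'} ≤ ENNReal.ofReal σ :=
      (e2 t).trans (ENNReal.ofReal_le_ofReal (hlT t ht))
    have b3 : ν {y | y ∉ A' ∧ s • y ∉ A'} ≤ ENNReal.ofReal (η ^ 2 + σ) :=
      (e3 s).trans (ENNReal.ofReal_le_ofReal (by have := hR' s hs; linarith))
    have b4 : ν {y | y ∉ A' ∧ (s * t) • y ∉ A'} ≤ ENNReal.ofReal (η ^ 2 + σ) :=
      (e3 (s * t)).trans (ENNReal.ofReal_le_ofReal (by have := hR' _ (hst t ht); linarith))
    have hmeas : ν {y | y ∉ A' ∧ s • y ∈ A' ∧ ¬ S (s • y) (s * t * s⁻¹)} ≤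
        ν {y | s⁻¹ • y ∉ A' ∧ y ∈ A' ∧ ¬ S y (s * t * s⁻¹)} := by
      have h5 := (hν s).measure_preimage_le
        {y | s⁻¹ • y ∉ A' ∧ y ∈ A' ∧ ¬ S y (s * t * s⁻¹)}
      refine le_trans (le_of_eq ?_) h5
      congr 1
      ext y
      simp only [Set.mem_preimage, Set.mem_ofPred_eq, inv_smul_smul]
    have hδ₃σ : σ ≤ δ₃ := by rw [hδ₃]; nlinarith [sq_nonneg η]
    have b5 : ν {y | y ∉ A' ∧ s • y ∈ A' ∧ ¬ S (s • y) (s * t * s⁻¹)} ≤
        ENNReal.ofReal δ₃ := by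
      refine hmeas.trans ?_
      rcases hJ1 t ht with ⟨i, hi⟩ | h
      · have h6 := e4 _ (hI2 i (Finset.mem_univ _))
        refine le_trans (measure_mono ?_) (h6.trans (ENNReal.ofReal_le_ofReal hδ₃σ))
        rintro y ⟨_, hy1, hy2⟩
        refine ⟨hy1, ?_⟩
        change ¬ S y (k i)
        rw [hi]
        exact hy2
      · exact e5 _ h
    calc _ ≤ ENNReal.ofReal σ + ENNReal.ofReal σ + ENNReal.ofReal (η ^ 2 + σ) +
          ENNReal.ofReal (η ^ 2 + σ) + ENNReal.ofReal δ₃ :=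
          add_le_add (add_le_add (add_le_add (add_le_add b1 b2) b3) b4) b5
      _ = ENNReal.ofReal (σ + σ + (η ^ 2 + σ) + (η ^ 2 + σ) + δ₃) := by
          have hδ₃0 : 0 ≤ δ₃ := hσ0.le.trans hδ₃σ
          have hq : 0 ≤ η ^ 2 + σ := by positivity
          rw [ENNReal.ofReal_add (p := σ + σ + (η ^ 2 + σ) + (η ^ 2 + σ)) (by positivity) hδ₃0,
            ENNReal.ofReal_add (p := σ + σ + (η ^ 2 + σ)) (by positivity) hq,
            ENNReal.ofReal_add (p := σ + σ) (by positivity) hq,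
            ENNReal.ofReal_add hσ0.le hσ0.le]
      _ ≤ _ := by
          apply ENNReal.ofReal_le_ofReal
          rw [hE, hδ₃]
          push_cast
          nlinarith
  have htot : ENNReal.ofReal c ≤ ENNReal.ofReal (((c + σ) * (1 - η) + m₀ * εk m₀ + d * εx) +
      η + d * E) := by
    refine key.trans ?_
    have h7 : ∑ t ∈ T, (ν {y | y ∈ A' ∧ ¬ S y t} + ν {y | y ∉ A' ∧ t • y ∈ A'} +
        ν {y | y ∉ A' ∧ s • y ∉ A'} + ν {y | y ∉ A' ∧ (s * t) • y ∉ A'} +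
        ν {y | y ∉ A' ∧ s • y ∈ A' ∧ ¬ S (s • y) (s * t * s⁻¹)}) ≤
        ENNReal.ofReal (d * E) := by
      refine (Finset.sum_le_sum hterm).trans ?_
      rw [Finset.sum_const, nsmul_eq_mul, conv' _ hE0, hd]
    have h8 : (0 : ℝ) ≤ 1 - η := by linarith
    have h9 : (0 : ℝ) ≤ c + σ := by linarith
    have h10 := (hεk0 m₀).le
    rw [Finset.card_univ, Fintype.card_fin, conv' _ h10, conv' _ hεx0.le]
    rw [ENNReal.ofReal_add (by positivity) (by positivity), ENNReal.ofReal_add (by positivity)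
      hη0.le, ENNReal.ofReal_add (by positivity) (by positivity),
      ENNReal.ofReal_add (by positivity) (by positivity), hd]
    rw [hd] at h7
    gcongr
  have hfin := (ENNReal.ofReal_le_ofReal_iff (by
    have h8 : (0 : ℝ) ≤ 1 - η := by linarith
    have h9 : (0 : ℝ) ≤ c + σ := by linarith
    have h10 := (hεk0 m₀).le
    positivity)).1 htot
  have h11 := hεk2 m₀
  have h12 : d * E ≤ η * (κ / 4) + d * (σ * (8 * n + 9)) := by
    rw [hE]
    have : d * (η ^ 2 * (4 * n + 4)) = η * (d * (4 * n + 4) * η) := by ring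
    have h13 : η * (d * (4 * n + 4) * η) ≤ η * (κ / 4) := by gcongr
    nlinarith
  have h14 : c * η - η = η * κ := by rw [hκ]; ring
  have h15 : 0 < η * κ := by positivity
  nlinarith

end Pool.Agent.Lib.MP_90732c_al.Cx.P2
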