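import Pool.Agent.Lib.MP_90732c_al.Cx.Two
import Pool.Agent.Lib.MP_90732c_al.Percolate

/-! Groups of bounded exponent have cost one, second part: sprinkling. -/

set_option autoImplicit false

open MeasureTheory
open scoped ENNReal Pointwise

namespace Pool.Agent.Lib.MP_90732c_al.Cx

open Pool.Agent.Lib.MP_90732c_al.Ab

namespace Spr

variable {G : Type} [Group G]

lemma bss_length (x : G) (w : List (G × Bool)) (p : G) : (bss x p w).length = w.length := by
  induction w generalizing p with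
  | nil => rfl
  | cons a w ih => simp [bss, ih]

open Classical in
/-- The labels which are used by a walk. -/
noncomputable def lb (x : G) (w : List (G × Bool)) : Finset G :=
  ((bss x x w).map fun b => b⁻¹).toFinset

open Classical in
lemma lb_card (x : G) (w : List (G × Bool)) : (lb x w).card ≤ w.length := by
  unfold lb
  refine (List.toFinset_card_le _).trans ?_
  rw [List.length_map, bss_length]

open Classical in
lemma mem_lb {x : G} {w : List (G × Bool)} {b : G} (hb : b ∈ bss x x w) : b⁻¹ ∈ lb x w := by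
  unfold lb
  rw [List.mem_toFinset]
  exact List.mem_map_of_mem hb

open Classical in
lemma lb_disjoint {x : G} {w w' : List (G × Bool)}
    (h : ∀ b ∈ bss x x w, b ∉ bss x x w') : Disjoint (lb x w) (lb x w') := by
  rw [Finset.disjoint_left]
  intro a ha ha'
  unfold lb at ha ha'
  rw [List.mem_toFinset, List.mem_map] at ha ha'
  obtain ⟨b, hb, rfl⟩ := ha
  obtain ⟨b', hb', he⟩ := ha'
  rw [inv_injective he] at hb'
  exact h b hb hb'

/-- The probability that none of the walks in `A` is open. -/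
lemma prob_le {N L K : ℕ} (E : Fin N → Finset G) (hdis : ∀ i j, i ≠ j → Disjoint (E i) (E j))
    (hcard : ∀ r, (E r).card ≤ L) (A : Finset (Fin N)) (hA : K ≤ A.card) {ε : ℝ} (h0 : 0 ≤ ε)
    (h1 : ε ≤ 1) :
    lam G {ω | ∀ r ∈ A, ∃ h ∈ E r, ¬ ω h < ε} ≤ ENNReal.ofReal ((1 - ε ^ L) ^ K) := by
  classical
  let C : Fin A.card → Finset G := fun j => E (A.orderEmbOfFin rfl j)
  have hC : ∀ i j, i ≠ j → Disjoint (C i) (C j) := fun i j hij =>
    hdis _ _ fun h => hij ((A.orderEmbOfFin rfl).injective h)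
  have hp := law_iInter_compl (E := G) C hC h0 h1
  have hsub : {ω : Lab G | ∀ r ∈ A, ∃ h ∈ E r, ¬ ω h < ε} ⊆
      (⋂ j, {x : G → ℝ | ∀ f ∈ C j, x f < ε}ᶜ : Set (G → ℝ)) := by
    intro ω hω
    refine Set.mem_iInter.2 fun j hj => ?_
    obtain ⟨h, hh, hlt⟩ := hω (A.orderEmbOfFin rfl j) (A.orderEmbOfFin_mem rfl j)
    exact hlt (hj h hh)
  have hp0 : 0 ≤ 1 - ε ^ L := by
    have := pow_le_one₀ (n := L) h0 h1
    linarith
  have hp1 : 1 - ε ^ L ≤ 1 := by
    have := pow_nonneg h0 L
    linarith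
  have e1 : (1 - (ENNReal.ofReal ε) ^ L : ℝ≥0∞) = ENNReal.ofReal (1 - ε ^ L) := by
    rw [ENNReal.ofReal_sub _ (pow_nonneg h0 L), ENNReal.ofReal_one, ENNReal.ofReal_pow h0]
  calc lam G {ω | ∀ r ∈ A, ∃ h ∈ E r, ¬ ω h < ε}
      ≤ law G (⋂ j, {x : G → ℝ | ∀ f ∈ C j, x f < ε}ᶜ) := measure_mono hsub
    _ = ∏ j, (1 - (ENNReal.ofReal ε) ^ (C j).card) := hp
    _ ≤ ∏ _j : Fin A.card, (1 - (ENNReal.ofReal ε) ^ L) := by
        refine Finset.prod_le_prod' fun j _ => tsub_le_tsub_left ?_ 1
        exact pow_le_pow_right_of_le_one' (by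
          rw [← ENNReal.ofReal_one]; exact ENNReal.ofReal_le_ofReal h1) (hcard _)
    _ = ENNReal.ofReal (1 - ε ^ L) ^ A.card := by
        rw [Finset.prod_const, Finset.card_univ, Fintype.card_fin, e1]
    _ ≤ ENNReal.ofReal (1 - ε ^ L) ^ K := by
        refine pow_le_pow_right_of_le_one' ?_ hA
        rw [← ENNReal.ofReal_one]
        exact ENNReal.ofReal_le_ofReal hp1
    _ = ENNReal.ofReal ((1 - ε ^ L) ^ K) := (ENNReal.ofReal_pow hp0 K).symm

/-- Markov's inequality for the number of bad indices. -/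
lemma markov {Y : Type} [MeasurableSpace Y] (ν : Measure Y) {N : ℕ} (hN : 0 < N)
    (bad : Fin N → Set Y) (hbad : ∀ r, MeasurableSet (bad r)) (few : Set Y)
    (hfew : MeasurableSet few) (h : ∀ y ∈ few, ∀ A : Finset (Fin N), (∀ r, r ∈ A ↔ y ∉ bad r) →
      A.card < N / 2) (β : ℝ≥0∞) (hβ : ∀ r, ν (few ∩ bad r) ≤ β) : ν few ≤ 2 * β := by
  classical
  have key : ((N - N / 2 + 1 : ℕ) : ℝ≥0∞) * ν few ≤ ∑ r, ν (few ∩ bad r) := by
    calc ((N - N / 2 + 1 : ℕ) : ℝ≥0∞) * ν few
        = ∫⁻ _ in few, ((N - N / 2 + 1 : ℕ) : ℝ≥0∞) ∂ν := by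
          rw [setLIntegral_const]
      _ ≤ ∫⁻ y in few, ∑ r, (bad r).indicator (fun _ => (1 : ℝ≥0∞)) y ∂ν := by
          refine setLIntegral_mono (Finset.measurable_sum _ fun r _ =>
            measurable_const.indicator (hbad r)) fun y hy => ?_
          have e1 : ∑ r, (bad r).indicator (fun _ => (1 : ℝ≥0∞)) y =
              ((Finset.univ.filter fun r => y ∈ bad r).card : ℝ≥0∞) := by
            simp only [Set.indicator_apply, Finset.sum_boole]
          rw [e1]
          have h2 := h y hy (Finset.univ.filter fun r => y ∉ bad r) fun r => by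
            simp
          have h3 := Finset.card_filter_add_card_filter_not (s := (Finset.univ : Finset (Fin N)))
            (fun r => y ∈ bad r)
          rw [Finset.card_univ, Fintype.card_fin] at h3
          exact_mod_cast (by omega : N - N / 2 + 1 ≤
            (Finset.univ.filter fun r => y ∈ bad r).card)
      _ = ∑ r, ∫⁻ y in few, (bad r).indicator (fun _ => (1 : ℝ≥0∞)) y ∂ν :=
          lintegral_finsetSum _ fun r _ => measurable_const.indicator (hbad r)
      _ = ∑ r, ν (few ∩ bad r) := by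
          refine Finset.sum_congr rfl fun r _ => ?_
          rw [lintegral_indicator_const (hbad r), one_mul, Measure.restrict_apply (hbad r),
            Set.inter_comm]
  have h4 : (N : ℝ≥0∞) * ν few ≤ N * (2 * β) := by
    calc (N : ℝ≥0∞) * ν few ≤ 2 * ((N - N / 2 + 1 : ℕ) : ℝ≥0∞) * ν few := by
          refine mul_le_mul_left ?_ _
          exact_mod_cast (by omega : N ≤ 2 * (N - N / 2 + 1))
      _ = 2 * (((N - N / 2 + 1 : ℕ) : ℝ≥0∞) * ν few) := by rw [mul_assoc]
      _ ≤ 2 * ∑ r, ν (few ∩ bad r) := mul_le_mul_right key _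
      _ ≤ 2 * ∑ _r : Fin N, β := mul_le_mul_right (Finset.sum_le_sum fun r _ => hβ r) _
      _ = N * (2 * β) := by
          rw [Finset.sum_const, Finset.card_univ, Fintype.card_fin, nsmul_eq_mul]
          ring
  exact (ENNReal.mul_le_mul_iff_right (by exact_mod_cast hN.ne') (ENNReal.natCast_ne_top N)).1 h4

end Spr

open Spr in
/-- Module SPR. -/
theorem spr (hW : WalkStatement) : SprStatement := by
  classical
  intro G _ _ Y _ _ ν _ hν S hS hSm x ε h0 h1 L N w hL hdis D hD β hβ S' hS' hSS' hx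
  have hp0 : 0 ≤ 1 - ε ^ L := by
    have := pow_le_one₀ (n := L) h0 h1
    linarith
  rcases Nat.eq_zero_or_pos N with rfl | hN
  · refine prob_le_one.trans ?_
    simp
  let bad : Fin N → Set Y := fun r => {y | ∃ m ∈ mvs x x (w r), ¬ S (m.1 • y) m.2}
  have hbad : ∀ r, MeasurableSet (bad r) := by
    intro r
    have : bad r = ⋃ m ∈ {m | m ∈ mvs x x (w r)}, (fun y : Y => m.1 • y) ⁻¹' {y | S y m.2}ᶜ := by
      ext y
      simp only [bad, Set.mem_ofPred_eq, Set.mem_iUnion, Set.mem_preimage, Set.mem_compl_iff,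
        exists_prop]
    rw [this]
    exact (List.finite_toSet _).measurableSet_biUnion fun m _ =>
      (hν m.1).measurable (hSm m.2).compl
  let YA : Finset (Fin N) → Set Y := fun A => {y | y ∈ D ∧ ∀ r, r ∈ A ↔ y ∉ bad r}
  have hYA : ∀ A, MeasurableSet (YA A) := by
    intro A
    have : YA A = D ∩ ⋂ r, (if r ∈ A then (bad r)ᶜ else bad r) := by
      ext y
      simp only [YA, Set.mem_ofPred_eq, Set.mem_inter_iff, Set.mem_iInter]
      refine and_congr_right fun _ => forall_congr' fun r => ?_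
      by_cases hr : r ∈ A
      · simp [hr]
      · simp [hr]
    rw [this]
    refine hD.inter (MeasurableSet.iInter fun r => ?_)
    by_cases hr : r ∈ A
    · rw [if_pos hr]; exact (hbad r).compl
    · rw [if_neg hr]; exact hbad r
  let WA : Finset (Fin N) → Set (Lab G) := fun A =>
    {ω | ∀ r ∈ A, ∃ h ∈ lb x (w r), ¬ ω h < ε}
  let I : Finset (Finset (Fin N)) := Finset.univ.filter fun A => N / 2 ≤ A.card
  let few : Set Y := ⋃ A ∈ Finset.univ.filter fun A : Finset (Fin N) => A.card < N / 2, YA A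
  have hfew : MeasurableSet few := Finset.measurableSet_biUnion _ fun A _ => hYA A
  -- the inclusion
  have hsub : {z : Y × Lab G | z.1 ∈ D ∧ ¬ S' z x} ⊆
      (few ×ˢ Set.univ) ∪ ⋃ A ∈ I, YA A ×ˢ WA A := by
    rintro z ⟨hz, hzx⟩
    let A : Finset (Fin N) := Finset.univ.filter fun r => z.1 ∉ bad r
    have hzA : z.1 ∈ YA A := ⟨hz, fun r => by simp [A]⟩
    by_cases hc : A.card < N / 2
    · left
      exact ⟨Set.mem_biUnion (x := A) (by simpa using hc) hzA, Set.mem_univ _⟩
    · right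
      refine Set.mem_biUnion (x := A) (by simpa [I] using Nat.le_of_not_lt hc) ⟨hzA, ?_⟩
      intro r hr
      by_contra hcon
      push Not at hcon
      have hgood : z.1 ∉ bad r := (hzA.2 r).1 hr
      have hmv : ∀ m ∈ mvs x x (w r), S' (m.1 • z) m.2 := by
        intro m hm
        apply hSS'
        by_contra hn
        exact hgood ⟨m, hm, hn⟩
      have hbs : ∀ b ∈ bss x x (w r), S' (b • z) x := by
        intro b hb
        apply hx
        change z.2 (b⁻¹ * 1) < ε
        rw [mul_one]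
        exact hcon _ (mem_lb hb)
      have h3 := hW G (Y × Lab G) S' hS' z x x (w r) hmv hbs
      have h4 := hS'.inv _ _ h3
      rw [inv_inv, inv_smul_smul] at h4
      exact hzx h4
  have hdisj : (I : Set (Finset (Fin N))).PairwiseDisjoint YA := by
    intro A _ B _ hAB
    rw [Function.onFun, Set.disjoint_left]
    intro y hy hy'
    apply hAB
    ext r
    rw [hy.2 r, hy'.2 r]
  have hprob : ∀ A ∈ I, lam G (WA A) ≤ ENNReal.ofReal ((1 - ε ^ L) ^ (N / 2)) := by
    intro A hA
    refine prob_le (fun r => lb x (w r)) (fun i j hij => lb_disjoint (hdis i j (Ne.symm hij)))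
      (fun r => (lb_card x (w r)).trans (hL r)) A ?_ h0 h1
    simpa [I] using hA
  have hfewβ : ν few ≤ 2 * β := by
    refine markov ν hN bad hbad few hfew ?_ β ?_
    · intro y hy A hA
      obtain ⟨B, hB, hyB⟩ := Set.mem_iUnion₂.1 hy
      have : A = B := by
        ext r
        rw [hA r, hyB.2 r]
      rw [this]
      simpa using hB
    · intro r
      refine (measure_mono ?_).trans (hβ r)
      rintro y ⟨hy, hy'⟩
      obtain ⟨B, hB, hyB⟩ := Set.mem_iUnion₂.1 hy
      exact ⟨hyB.1, hy'⟩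
  calc (ν.prod (lam G)) {z | z.1 ∈ D ∧ ¬ S' z x}
      ≤ (ν.prod (lam G)) ((few ×ˢ Set.univ) ∪ ⋃ A ∈ I, YA A ×ˢ WA A) := measure_mono hsub
    _ ≤ (ν.prod (lam G)) (few ×ˢ Set.univ) + ∑ A ∈ I, (ν.prod (lam G)) (YA A ×ˢ WA A) :=
        (measure_union_le _ _).trans (add_le_add le_rfl (measure_biUnion_finset_le _ _))
    _ = ν few + ∑ A ∈ I, ν (YA A) * lam G (WA A) := by
        rw [Measure.prod_prod, measure_univ, mul_one]
        congr 1
        exact Finset.sum_congr rfl fun A _ => Measure.prod_prod _ _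
    _ ≤ 2 * β + ∑ A ∈ I, ν (YA A) * ENNReal.ofReal ((1 - ε ^ L) ^ (N / 2)) :=
        add_le_add hfewβ (Finset.sum_le_sum fun A hA => mul_le_mul_right (hprob A hA) _)
    _ = 2 * β + ν (⋃ A ∈ I, YA A) * ENNReal.ofReal ((1 - ε ^ L) ^ (N / 2)) := by
        rw [← Finset.sum_mul, measure_biUnion_finset hdisj fun A _ => hYA A]
    _ ≤ 2 * β + 1 * ENNReal.ofReal ((1 - ε ^ L) ^ (N / 2)) :=
        add_le_add le_rfl (mul_le_mul_left prob_le_one _)
    _ = 2 * β + ENNReal.ofReal ((1 - ε ^ L) ^ (N / 2)) := by rw [one_mul]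

end Pool.Agent.Lib.MP_90732c_al.Cx
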