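import Pool.Agent.Lib.MP_90732c_al.Cx.Two

/-! Module WALK (helper88): a relation which contains the moves and the edges of a walk contains
the closing edge. -/

set_option autoImplicit false

namespace Pool.Agent.Lib.MP_90732c_al.Cx

open Pool.Agent.Lib.MP_90732c_al.Ab

theorem walk : WalkStatement := by
  intro G _ Y _ S hS y x p w
  induction w generalizing p with
  | nil =>
    intro h1 _
    exact h1 (p, p⁻¹) (List.mem_singleton.2 rfl)
  | cons a w ih =>
    intro h1 h2
    have h3 : S (p • y) a.1 := h1 (p, a.1) List.mem_cons_self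
    have h4 : S (bas x p a • y) x := h2 _ List.mem_cons_self
    have h5 : S (stp x p a • y) (stp x p a)⁻¹ :=
      ih (stp x p a) (fun m hm => h1 m (List.mem_cons_of_mem _ hm))
        (fun b hb => h2 b (List.mem_cons_of_mem _ hb))
    unfold bas at h4
    unfold stp at h5
    by_cases ha : a.2 = true
    · rw [if_pos ha] at h4 h5
      have h6 : S (p • y) (x * a.1) := by
        refine hS.mul _ _ _ h3 ?_
        rw [smul_smul]
        exact h4
      have h7 : S (p • y) ((x * (a.1 * p))⁻¹ * (x * a.1)) := by
        refine hS.mul _ _ _ h6 ?_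
        rw [smul_smul, mul_assoc]
        exact h5
      have e : (x * (a.1 * p))⁻¹ * (x * a.1) = p⁻¹ := by group
      rw [e] at h7
      exact h7
    · rw [if_neg ha] at h4 h5
      have h6 : S ((a.1 * p) • y) x⁻¹ := by
        have := hS.inv _ _ h4
        rw [smul_smul, mul_inv_cancel_left] at this
        exact this
      have h7 : S (p • y) (x⁻¹ * a.1) := by
        refine hS.mul _ _ _ h3 ?_
        rw [smul_smul]
        exact h6
      have h8 : S (p • y) ((x⁻¹ * (a.1 * p))⁻¹ * (x⁻¹ * a.1)) := by
        refine hS.mul _ _ _ h7 ?_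
        rw [smul_smul, mul_assoc]
        exact h5
      have e : (x⁻¹ * (a.1 * p))⁻¹ * (x⁻¹ * a.1) = p⁻¹ := by group
      rw [e] at h8
      exact h8

end Pool.Agent.Lib.MP_90732c_al.Cx
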