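import Pool.Agent.Lib.MP_90732c_al.Cx.Two

/-! Module WALLS (helper70): a sequence of relations gives nearly invariant sets. -/

set_option autoImplicit false
set_option linter.unusedSectionVars false

open MeasureTheory Filter
open scoped ENNReal Pointwise Topology

namespace Pool.Agent.Lib.MP_90732c_al.Cx

open Pool.Agent.Lib.MP_90732c_al.Ab

namespace Walls

/-! ### One relation -/

section one

variable {G : Type} [Group G] {X : Type} [MeasurableSpace X] [MulAction G X] {μ : Measure X}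
  [IsProbabilityMeasure μ] {S : X → G → Prop}

theorem dd_one (hS : IsRel S) : μ {x | ¬ S x 1} = 0 := by
  have : {x | ¬ S x 1} = ∅ := by
    ext x
    simp [hS.one x]
  rw [this, measure_empty]

theorem dd_mul (hμ : ∀ g : G, MeasurePreserving (fun x : X => g • x) μ μ) (hS : IsRel S)
    (hm : ∀ g, MeasurableSet {x | S x g}) (g h : G) :
    μ {x | ¬ S x (g * h)} ≤ μ {x | ¬ S x g} + μ {x | ¬ S x h} := by
  have h1 : {x | ¬ S x (g * h)} ⊆ (fun x => h • x) ⁻¹' {x | ¬ S x g} ∪ {x | ¬ S x h} := by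
    intro x hx
    by_cases h2 : S x h
    · left
      intro h3
      exact hx (hS.mul x h g h2 h3)
    · exact Or.inr h2
  refine (measure_mono h1).trans ((measure_union_le _ _).trans ?_)
  have h2 : μ ((fun x => h • x) ⁻¹' {x | ¬ S x g}) = μ {x | ¬ S x g} :=
    (hμ h).measure_preimage (hm g).compl.nullMeasurableSet
  rw [h2]

theorem dd_inv (hμ : ∀ g : G, MeasurePreserving (fun x : X => g • x) μ μ) (hS : IsRel S)
    (hm : ∀ g, MeasurableSet {x | S x g}) (g : G) :
    μ {x | ¬ S x g⁻¹} = μ {x | ¬ S x g} := by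
  have h1 : {x | ¬ S x g⁻¹} = (fun x => g⁻¹ • x) ⁻¹' {x | ¬ S x g} := by
    ext x
    show ¬ S x g⁻¹ ↔ ¬ S (g⁻¹ • x) g
    refine not_congr ⟨fun h => ?_, fun h => ?_⟩
    · have := hS.inv _ _ h
      rwa [inv_inv] at this
    · have := hS.inv _ _ h
      rwa [smul_inv_smul] at this
  have h2 : μ ((fun x => g⁻¹ • x) ⁻¹' {x | ¬ S x g}) = μ {x | ¬ S x g} :=
    (hμ g⁻¹).measure_preimage (hm g).compl.nullMeasurableSet
  rw [h1, h2]

end one

/-! ### Flags -/

/-- A coin with probability `l` of `true`. -/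
noncomputable def ber (l : ℝ) : Measure Bool :=
  ENNReal.ofReal l • Measure.dirac true + ENNReal.ofReal (1 - l) • Measure.dirac false

theorem ber_prob {l : ℝ} (h0 : 0 ≤ l) (h1 : l ≤ 1) : IsProbabilityMeasure (ber l) := by
  constructor
  simp only [ber, Measure.coe_add, Measure.coe_smul, Pi.add_apply, Pi.smul_apply, measure_univ,
    smul_eq_mul, mul_one]
  rw [← ENNReal.ofReal_add h0 (by linarith)]
  simp

theorem ber_true (l : ℝ) : ber l {true} = ENNReal.ofReal l := by
  simp [ber]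

/-- The flagged product. -/
def Fl (X : ℕ → Type) : Type := ∀ i, X i × Bool

section flags

variable {G : Type} [Group G] {X : ℕ → Type} [∀ i, MeasurableSpace (X i)]
  [∀ i, MulAction G (X i)] {μ : ∀ i, Measure (X i)} [∀ i, IsProbabilityMeasure (μ i)]
  {S : ∀ i, X i → G → Prop}

instance : MeasurableSpace (Fl X) := inferInstanceAs (MeasurableSpace (∀ i, X i × Bool))

instance [∀ i, StandardBorelSpace (X i)] : StandardBorelSpace (Fl X) :=
  inferInstanceAs (StandardBorelSpace (∀ i, X i × Bool))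

instance : MulAction G (Fl X) where
  smul g y := fun i => (g • (y i).1, (y i).2)
  one_smul y := by
    funext i
    exact Prod.ext (one_smul G (y i).1) rfl
  mul_smul g h y := by
    funext i
    exact Prod.ext (mul_smul g h (y i).1) rfl

theorem smul_fst (g : G) (y : Fl X) (i : ℕ) : ((g • y) i).1 = g • (y i).1 := rfl

theorem smul_snd (g : G) (y : Fl X) (i : ℕ) : ((g • y) i).2 = (y i).2 := rfl

/-- The law of the flagged product. -/
noncomputable def flL (μ : ∀ i, Measure (X i)) (l : ℝ) : Measure (Fl X) :=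
  Measure.infinitePi (fun i => (μ i).prod (ber l))

theorem flL_prob {l : ℝ} (h0 : 0 ≤ l) (h1 : l ≤ 1) : IsProbabilityMeasure (flL μ l) := by
  have := ber_prob h0 h1
  exact (inferInstance : IsProbabilityMeasure
    (Measure.infinitePi (fun i => (μ i).prod (ber l))))

theorem flL_mp (hμ : ∀ i, ∀ g : G, MeasurePreserving (fun x : X i => g • x) (μ i) (μ i))
    {l : ℝ} (h0 : 0 ≤ l) (h1 : l ≤ 1) (g : G) :
    MeasurePreserving (fun y : Fl X => g • y) (flL μ l) (flL μ l) := by
  have := ber_prob h0 h1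
  have hm : ∀ i, MeasurePreserving (fun z : X i × Bool => (g • z.1, z.2))
      ((μ i).prod (ber l)) ((μ i).prod (ber l)) := fun i =>
    (hμ i g).prod (MeasurePreserving.id (ber l))
  have h := Measure.infinitePi_map_pi (μ := fun i => (μ i).prod (ber l))
    (f := fun i (z : X i × Bool) => (g • z.1, z.2)) (fun i => (hm i).measurable)
  refine ⟨?_, ?_⟩
  · refine measurable_pi_lambda _ (fun i => ?_)
    exact (hm i).measurable.comp (measurable_pi_apply i)
  · refine (h.trans ?_)
    unfold flL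
    congr 1
    funext i
    exact (hm i).map_eq

/-- The relation: all flagged relations hold. -/
def FS (S : ∀ i, X i → G → Prop) (y : Fl X) (g : G) : Prop := ∀ i, (y i).2 = true → S i (y i).1 g

theorem fs_rel (hS : ∀ i, IsRel (S i)) : IsRel (FS S) := by
  refine ⟨fun y i _ => (hS i).one _, fun y g h h1 h2 i hi => ?_, fun y g h i hi => ?_⟩
  · exact (hS i).mul _ g h (h1 i hi) (h2 i hi)
  · exact (hS i).inv _ g (h i hi)

theorem meas_E (hm : ∀ i g, MeasurableSet {x | S i x g}) (i : ℕ) (g : G) :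
    MeasurableSet {z : X i × Bool | z.2 = true → S i z.1 g} := by
  have h : {z : X i × Bool | z.2 = true → S i z.1 g} =
      (Prod.snd ⁻¹' {true})ᶜ ∪ Prod.fst ⁻¹' {x | S i x g} := by
    ext z
    simp only [Set.mem_ofPred_eq, Set.mem_union, Set.mem_compl_iff, Set.mem_preimage,
      Set.mem_singleton_iff]
    tauto
  rw [h]
  exact ((measurable_snd (measurableSet_singleton true)).compl).union (measurable_fst (hm i g))

theorem meas_FS (hm : ∀ i g, MeasurableSet {x | S i x g}) (g : G) :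
    MeasurableSet {y : Fl X | FS S y g} := by
  have h : {y : Fl X | FS S y g} =
      ⋂ i, (fun y : Fl X => y i) ⁻¹' {z : X i × Bool | z.2 = true → S i z.1 g} := by
    ext y
    simp [FS]
  rw [h]
  refine MeasurableSet.iInter fun i => ?_
  exact (measurable_pi_apply i) (meas_E hm i g)

/-- The probability that a flagged relation fails. -/
theorem meas_bad {l : ℝ} (h0 : 0 ≤ l) (h1 : l ≤ 1) (i : ℕ) (g : G) :
    ((μ i).prod (ber l)) {z : X i × Bool | z.2 = true ∧ ¬ S i z.1 g} =
      μ i {x | ¬ S i x g} * ENNReal.ofReal l := by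
  have := ber_prob h0 h1
  have h : {z : X i × Bool | z.2 = true ∧ ¬ S i z.1 g} = {x | ¬ S i x g} ×ˢ {true} := by
    ext z
    simp only [Set.mem_ofPred_eq, Set.mem_prod, Set.mem_singleton_iff]
    tauto
  rw [h, Measure.prod_prod, ber_true]

theorem not_FS_le (hm : ∀ i g, MeasurableSet {x | S i x g}) {l : ℝ} (h0 : 0 ≤ l) (h1 : l ≤ 1)
    (g : G) : flL μ l {y | ¬ FS S y g} ≤ ENNReal.ofReal l * ∑' i, μ i {x | ¬ S i x g} := by
  have := ber_prob h0 h1
  have hs : {y : Fl X | ¬ FS S y g} ⊆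
      ⋃ i, (fun y : Fl X => y i) ⁻¹' {z : X i × Bool | z.2 = true ∧ ¬ S i z.1 g} := by
    intro y hy
    have hy' : ¬ ∀ i, (y i).2 = true → S i (y i).1 g := hy
    push Not at hy'
    obtain ⟨i, hi⟩ := hy'
    exact Set.mem_iUnion.2 ⟨i, hi⟩
  refine (measure_mono hs).trans ((measure_iUnion_le _).trans ?_)
  rw [← ENNReal.tsum_mul_left]
  refine ENNReal.tsum_le_tsum fun i => ?_
  have hme : MeasurableSet {z : X i × Bool | z.2 = true ∧ ¬ S i z.1 g} := by
    have h : {z : X i × Bool | z.2 = true ∧ ¬ S i z.1 g} =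
        {z : X i × Bool | z.2 = true → S i z.1 g}ᶜ := by
      ext z
      simp only [Set.mem_ofPred_eq, Set.mem_compl_iff]
      tauto
    rw [h]
    exact (meas_E hm i g).compl
  have hmp := measurePreserving_eval_infinitePi (fun i => (μ i).prod (ber l)) i
  have h2 := hmp.measure_preimage hme.nullMeasurableSet
  have h3 : flL μ l ((fun y : Fl X => y i) ⁻¹' {z : X i × Bool | z.2 = true ∧ ¬ S i z.1 g}) =
      ((μ i).prod (ber l)) {z : X i × Bool | z.2 = true ∧ ¬ S i z.1 g} := h2
  rw [h3, meas_bad h0 h1, mul_comm]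

theorem FS_le_prod (hm : ∀ i g, MeasurableSet {x | S i x g}) {l : ℝ} (h0 : 0 ≤ l) (h1 : l ≤ 1)
    (g : G) (n : ℕ) : flL μ l {y | FS S y g} ≤
      ∏ i ∈ Finset.range n, (1 - ENNReal.ofReal l * μ i {x | ¬ S i x g}) := by
  have := ber_prob h0 h1
  have h2 := Measure.infinitePi_pi (μ := fun i => (μ i).prod (ber l)) (s := Finset.range n)
    (t := fun i => {z : X i × Bool | z.2 = true → S i z.1 g}) (fun i _ => meas_E hm i g)
  have hs : {y : Fl X | FS S y g} ⊆ Set.pi (↑(Finset.range n))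
      (fun i => {z : X i × Bool | z.2 = true → S i z.1 g}) := by
    intro y hy i _
    exact hy i
  refine (measure_mono hs).trans ?_
  have h3 : flL μ l (Set.pi (↑(Finset.range n))
      (fun i => {z : X i × Bool | z.2 = true → S i z.1 g})) = _ := h2
  rw [h3]
  refine Finset.prod_le_prod' fun i _ => ?_
  have h4 : {z : X i × Bool | z.2 = true → S i z.1 g}ᶜ =
      {z : X i × Bool | z.2 = true ∧ ¬ S i z.1 g} := by
    ext z
    simp only [Set.mem_ofPred_eq, Set.mem_compl_iff]
    tauto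
  have h5 := prob_compl_eq_one_sub (μ := (μ i).prod (ber l)) (meas_E hm i g).compl
  rw [compl_compl, h4, meas_bad h0 h1] at h5
  rw [h5, mul_comm]

theorem FS_le_exp (hm : ∀ i g, MeasurableSet {x | S i x g}) {l : ℝ} (h0 : 0 ≤ l) (h1 : l ≤ 1)
    (g : G) (hfin : ∑' i, μ i {x | ¬ S i x g} ≠ ∞) : flL μ l {y | FS S y g} ≤
      ENNReal.ofReal (Real.exp (-(l * (∑' i, μ i {x | ¬ S i x g}).toReal))) := by
  have hd : ∀ i, μ i {x | ¬ S i x g} ≠ ∞ := fun i => measure_ne_top _ _
  have hstep : ∀ n : ℕ, flL μ l {y | FS S y g} ≤ ENNReal.ofReal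
      (Real.exp (-(l * ∑ i ∈ Finset.range n, (μ i {x | ¬ S i x g}).toReal))) := by
    intro n
    refine (FS_le_prod hm h0 h1 g n).trans ?_
    have h2 : ∀ i, (1 : ℝ≥0∞) - ENNReal.ofReal l * μ i {x | ¬ S i x g} ≤
        ENNReal.ofReal (Real.exp (-(l * (μ i {x | ¬ S i x g}).toReal))) := by
      intro i
      have h3 : ENNReal.ofReal l * μ i {x | ¬ S i x g} =
          ENNReal.ofReal (l * (μ i {x | ¬ S i x g}).toReal) := by
        rw [ENNReal.ofReal_mul h0, ENNReal.ofReal_toReal (hd i)]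
      rw [h3, ← ENNReal.ofReal_one, ← ENNReal.ofReal_sub _ (by positivity)]
      refine ENNReal.ofReal_le_ofReal ?_
      have := Real.add_one_le_exp (-(l * (μ i {x | ¬ S i x g}).toReal))
      linarith
    refine (Finset.prod_le_prod' fun i _ => h2 i).trans ?_
    rw [← ENNReal.ofReal_prod_of_nonneg (fun i _ => (Real.exp_pos _).le), ← Real.exp_sum,
      Finset.sum_neg_distrib, Finset.mul_sum]
  have hlim : Tendsto (fun n => ∑ i ∈ Finset.range n, (μ i {x | ¬ S i x g}).toReal) atTop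
      (𝓝 (∑' i, μ i {x | ¬ S i x g}).toReal) := by
    rw [ENNReal.tsum_toReal_eq hd]
    exact (ENNReal.summable_toReal hfin).hasSum.tendsto_sum_nat
  refine ge_of_tendsto' (f := fun n : ℕ => ENNReal.ofReal
    (Real.exp (-(l * ∑ i ∈ Finset.range n, (μ i {x | ¬ S i x g}).toReal)))) (x := atTop) ?_ hstep
  refine ENNReal.tendsto_ofReal ?_
  exact (Real.continuous_exp.tendsto _).comp ((hlim.const_mul l).neg)

end flags

end Walls

open Walls in
/-- WALLS, from COIN. -/
theorem walls (hC : CoinStatement) : WallsStatement := by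
  intro G _ _ T hT hS
  obtain ⟨X, mX, sX, aX, μ, pμ, S, hμ, hrel, hm, hsum, hfar⟩ := hS
  -- the length is finite
  have hfin : ∀ g : G, ∑' i, μ i {x | ¬ S i x g} ≠ ∞ := by
    intro g
    have hg : g ∈ Subgroup.closure (T : Set G) := by rw [hT]; trivial
    induction hg using Subgroup.closure_induction with
    | mem t ht =>
      refine ne_top_of_le_ne_top ?_ (ENNReal.tsum_le_tsum fun i => hsum i t ht)
      rw [ENNReal.tsum_geometric]
      simp
    | one =>
      have : ∀ i, μ i {x | ¬ S i x 1} = 0 := fun i => dd_one (hrel i)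
      simp [this]
    | mul u v _ _ hu hv =>
      refine ne_top_of_le_ne_top (ENNReal.add_ne_top.2 ⟨hu, hv⟩) ?_
      rw [← ENNReal.tsum_add]
      exact ENNReal.tsum_le_tsum fun i => dd_mul (hμ i) (hrel i) (hm i) u v
    | inv u _ hu =>
      have : ∀ i, μ i {x | ¬ S i x u⁻¹} = μ i {x | ¬ S i x u} := fun i =>
        dd_inv (hμ i) (hrel i) (hm i) u
      simpa [this] using hu
  refine ⟨fun g => (∑' i, μ i {x | ¬ S i x g}).toReal, fun g => ENNReal.toReal_nonneg, ?_, ?_,
    ?_, ?_⟩
  · intro g h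
    show (∑' i, μ i {x | ¬ S i x (g * h)}).toReal ≤ _
    rw [← ENNReal.toReal_add (hfin g) (hfin h), ← ENNReal.tsum_add]
    refine ENNReal.toReal_mono ?_ (ENNReal.tsum_le_tsum fun i => dd_mul (hμ i) (hrel i) (hm i) g h)
    rw [ENNReal.tsum_add]
    exact ENNReal.add_ne_top.2 ⟨hfin g, hfin h⟩
  · intro g
    show (∑' i, μ i {x | ¬ S i x g⁻¹}).toReal = _
    congr 1
    exact tsum_congr fun i => dd_inv (hμ i) (hrel i) (hm i) g
  · intro M
    obtain ⟨k, hk⟩ := exists_nat_ge (2 * M)
    obtain ⟨g, hg⟩ := hfar k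
    refine ⟨g, ?_⟩
    have h1 : ((k : ℝ≥0∞) * 2⁻¹) ≤ ∑' i, μ i {x | ¬ S i x g} := by
      refine le_trans ?_ (ENNReal.sum_le_tsum (Finset.range k))
      rw [← nsmul_eq_mul, ← Finset.card_range k, ← Finset.sum_const, Finset.card_range]
      refine Finset.sum_le_sum fun i hi => ?_
      have h2 := hg i (Finset.mem_range.1 hi)
      have h3 : μ i {x | ¬ S i x g} = 1 - μ i {x | S i x g} :=
        prob_compl_eq_one_sub (hm i g)
      rw [h3]
      refine le_trans ?_ (tsub_le_tsub_left h2 1)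
      rw [ENNReal.one_sub_inv_two]
    have h4 := ENNReal.toReal_mono (hfin g) h1
    rw [ENNReal.toReal_mul, ENNReal.toReal_inv, ENNReal.toReal_natCast, ENNReal.toReal_ofNat] at h4
    show M ≤ (∑' i, μ i {x | ¬ S i x g}).toReal
    linarith
  · intro η l hη0 hη1 hl0 hl1
    have := flL_prob (μ := μ) hl0.le hl1
    obtain ⟨Ω, mΩ, sΩ, aΩ, P, pP, A, h1, h2, h3, h4, h5⟩ := hC G (Fl X) (flL μ l)
      (flL_mp hμ hl0.le hl1) (FS S) (fs_rel hrel) (meas_FS hm) η hη0.le hη1.le
    refine ⟨Ω, mΩ, sΩ, aΩ, P, pP, A, h1, h2, h3, fun g => ?_, fun g => ?_⟩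
    · refine (h4 g).trans ((not_FS_le hm hl0.le hl1 g).trans (le_of_eq ?_))
      rw [ENNReal.ofReal_mul hl0.le, ENNReal.ofReal_toReal (hfin g)]
    · refine (h5 g).trans ?_
      rw [ENNReal.ofReal_add (by positivity) (Real.exp_pos _).le]
      gcongr
      exact FS_le_exp hm hl0.le hl1 g (hfin g)

end Pool.Agent.Lib.MP_90732c_al.Cx
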